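import Mathlib

/-!
An abstract form of the torsion argument for the (first) Grigorchuk group, and the concrete
permutations of the binary tree realising it.
-/

namespace Pool.Agent.R701.Grig

/-- the letters `b`, `c`, `d` -/
inductive L | b | c | d
deriving DecidableEq

/-- weights of the letters `b`, `c`, `d` -/
def L.w : L → ℕ
  | .b => 4
  | .c => 3
  | .d => 2

/-- weights of the letters; `none` is the letter `a` -/
def ow : Option L → ℕ
  | none => 3
  | some x => x.w

/-- weight of a word -/
def ww (l : List (Option L)) : ℕ := (l.map ow).sum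

/-- A group with elements `a`, `v b`, `v c`, `v d` satisfying the wreath recursion of the Grigorchuk
group. -/
structure Data (P : Type*) [Group P] where
  a : P
  v : L → P
  ψ : P → P → P
  ψ_one : ψ 1 1 = 1
  ψ_mul : ∀ x y x' y', ψ x y * ψ x' y' = ψ (x * x') (y * y')
  aa : a * a = 1
  vv : ∀ x, v x * v x = 1
  bc : v .b * v .c = v .d
  cb : v .c * v .b = v .d
  bd : v .b * v .d = v .c
  db : v .d * v .b = v .c
  cd : v .c * v .d = v .b
  dc : v .d * v .c = v .b
  swap : ∀ x y, a * ψ x y = ψ y x * a
  hb : v .b = ψ (v .c) a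
  hc : v .c = ψ (v .d) a
  hd : v .d = ψ (v .b) 1

variable {P : Type*} [Group P] (D : Data P)

namespace Data

/-- value of a letter -/
def ov : Option L → P
  | none => D.a
  | some x => D.v x

/-- value of a word -/
def wv (l : List (Option L)) : P := (l.map D.ov).prod

/-- the product of all `a * v x` over a list -/
def PP (l : List L) : P := (l.map fun x => D.a * D.v x).prod

end Data

/-- the weight of the word `a x₁ a x₂ ...` -/
def W (l : List L) : ℕ := (l.map fun x => 3 + x.w).sum

@[simp] lemma W_nil : W [] = 0 := rfl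
@[simp] lemma W_cons (x : L) (l : List L) : W (x :: l) = 3 + x.w + W l := by simp [W]
@[simp] lemma W_append (l l' : List L) : W (l ++ l') = W l + W l' := by simp [W]
@[simp] lemma ww_nil : ww [] = 0 := rfl
@[simp] lemma ww_cons (x : Option L) (l : List (Option L)) : ww (x :: l) = ow x + ww l := by
  simp [ww]
@[simp] lemma ww_append (l l' : List (Option L)) : ww (l ++ l') = ww l + ww l' := by simp [ww]

@[simp] lemma PP_nil : D.PP [] = 1 := rfl
@[simp] lemma PP_cons (x : L) (l : List L) : D.PP (x :: l) = D.a * D.v x * D.PP l := by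
  simp [Data.PP]
@[simp] lemma PP_append (l l' : List L) : D.PP (l ++ l') = D.PP l * D.PP l' := by simp [Data.PP]
@[simp] lemma wv_nil : D.wv [] = 1 := rfl
@[simp] lemma wv_cons (x : Option L) (l : List (Option L)) :
    D.wv (x :: l) = D.ov x * D.wv l := by simp [Data.wv]
@[simp] lemma wv_append (l l' : List (Option L)) : D.wv (l ++ l') = D.wv l * D.wv l' := by
  simp [Data.wv]

/-- first section of a letter, as a word -/
def s0 : L → List (Option L)
  | .b => [some .c]
  | .c => [some .d]
  | .d => [some .b]

/-- second section of a letter, as a word -/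
def s1 : L → List (Option L)
  | .b => [none]
  | .c => [none]
  | .d => []

lemma v_eq (x : L) : D.v x = D.ψ (D.wv (s0 x)) (D.wv (s1 x)) := by
  cases x
  · simpa [s0, s1, Data.ov] using D.hb
  · simpa [s0, s1, Data.ov] using D.hc
  · simpa [s0, s1, Data.ov] using D.hd

lemma s_weight (x : L) : ww (s0 x) + ww (s1 x) + 1 = 3 + x.w := by
  cases x <;> simp [s0, s1, ow, L.w]

/-- the two sections of `a x₁ a x₂ ...` (up to a power of `a` on the left) -/
def f : List L → List (Option L) × List (Option L)
  | [] => ([], [])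
  | x :: l => if l.length % 2 = 0 then (s0 x ++ (f l).1, s1 x ++ (f l).2)
      else (s1 x ++ (f l).1, s0 x ++ (f l).2)

lemma f_weight (l : List L) : ww (f l).1 + ww (f l).2 + l.length = W l := by
  induction l with
  | nil => simp [f]
  | cons x l ih =>
    have := s_weight x
    rw [f]
    split_ifs <;> simp <;> omega

lemma PP_f (l : List L) :
    (l.length % 2 = 0 → D.PP l = D.ψ (D.wv (f l).1) (D.wv (f l).2)) ∧
    (l.length % 2 = 1 → D.PP l = D.a * D.ψ (D.wv (f l).1) (D.wv (f l).2)) := by
  induction l with
  | nil => simp [f, D.ψ_one]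
  | cons x l ih =>
    rcases Nat.mod_two_eq_zero_or_one l.length with h | h
    · refine ⟨fun h' => ?_, fun _ => ?_⟩
      · simp only [List.length_cons] at h'; omega
      · rw [PP_cons, ih.1 h, f, if_pos h, v_eq, mul_assoc, D.ψ_mul]
        simp
    · refine ⟨fun _ => ?_, fun h' => ?_⟩
      · rw [PP_cons, ih.2 h, f, if_neg (by omega), v_eq]
        rw [D.swap, mul_assoc, ← mul_assoc D.a D.a, D.aa, one_mul, D.ψ_mul]
        simp
      · simp only [List.length_cons] at h'; omega

lemma torsion_ψ {x y : P} (hx : IsOfFinOrder x) (hy : IsOfFinOrder y) :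
    IsOfFinOrder (D.ψ x y) := by
  rw [isOfFinOrder_iff_pow_eq_one] at *
  obtain ⟨m, hm, hx⟩ := hx
  obtain ⟨n, hn, hy⟩ := hy
  refine ⟨m * n, Nat.mul_pos hm hn, ?_⟩
  have key : ∀ k : ℕ, (D.ψ x y) ^ k = D.ψ (x ^ k) (y ^ k) := by
    intro k
    induction k with
    | zero => simp [D.ψ_one]
    | succ k ih => rw [pow_succ, ih, D.ψ_mul, pow_succ, pow_succ]
  rw [key, pow_mul, hx, mul_comm m n, pow_mul, hy]
  simp [D.ψ_one]

lemma finOrder_conj {x g : P} (h : IsOfFinOrder (g * x * g⁻¹)) : IsOfFinOrder x := by
  rw [isOfFinOrder_iff_pow_eq_one] at *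
  obtain ⟨m, hm, h⟩ := h
  refine ⟨m, hm, ?_⟩
  rw [conj_pow] at h
  have : x ^ m = g⁻¹ * (g * x ^ m * g⁻¹) * g := by group
  rw [this, h]; group

lemma letter_mul (x z : L) : (D.v z * D.v x = 1) ∨
    ∃ y : L, D.v z * D.v x = D.v y ∧ y.w ≤ z.w + x.w := by
  cases x <;> cases z
  · exact Or.inl (D.vv _)
  · exact Or.inr ⟨.d, D.cb, by simp [L.w]⟩
  · exact Or.inr ⟨.c, D.db, by simp [L.w]⟩
  · exact Or.inr ⟨.d, D.bc, by simp [L.w]⟩
  · exact Or.inl (D.vv _)
  · exact Or.inr ⟨.b, D.dc, by simp [L.w]⟩
  · exact Or.inr ⟨.c, D.bd, by simp [L.w]⟩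
  · exact Or.inr ⟨.b, D.cd, by simp [L.w]⟩
  · exact Or.inl (D.vv _)

lemma a_inv : D.a⁻¹ = D.a := by
  rw [inv_eq_iff_mul_eq_one]; exact D.aa
lemma v_inv (x : L) : (D.v x)⁻¹ = D.v x := by
  rw [inv_eq_iff_mul_eq_one]; exact D.vv x

lemma finOrder_a : IsOfFinOrder D.a :=
  isOfFinOrder_iff_pow_eq_one.2 ⟨2, by norm_num, by rw [pow_two, D.aa]⟩
lemma finOrder_v (x : L) : IsOfFinOrder (D.v x) :=
  isOfFinOrder_iff_pow_eq_one.2 ⟨2, by norm_num, by rw [pow_two, D.vv]⟩

/-- cyclic reduction -/
lemma cyc (N : ℕ) (hN : ∀ l, W l ≤ N → IsOfFinOrder (D.PP l)) : ∀ k : ℕ, ∀ l : List L,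
    l.length = k → (W l + 3 ≤ N → IsOfFinOrder (D.PP l * D.a)) ∧
      (∀ x : L, x.w + W l ≤ N → IsOfFinOrder (D.v x * D.PP l)) := by
  intro k
  induction k with
  | zero =>
    intro l hl
    have : l = [] := List.eq_nil_of_length_eq_zero hl
    subst this
    refine ⟨fun _ => ?_, fun x _ => ?_⟩
    · simpa using finOrder_a D
    · simpa using finOrder_v D x
  | succ k ih =>
    intro l hl
    refine ⟨fun hw => ?_, fun x hw => ?_⟩
    · obtain ⟨y, l', rfl⟩ := List.exists_cons_of_length_eq_add_one hl
      have h := (ih l' (by simpa using hl)).2 y (by simp at hw; omega)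
      apply finOrder_conj (g := D.a)
      have e : D.a * (D.PP (y :: l') * D.a) * D.a⁻¹ = D.v y * D.PP l' := by
        rw [PP_cons, a_inv]
        calc D.a * (D.a * D.v y * D.PP l' * D.a) * D.a
            = (D.a * D.a) * D.v y * D.PP l' * (D.a * D.a) := by group
          _ = _ := by rw [D.aa]; simp
      rw [e]; exact h
    · obtain ⟨l', z, rfl⟩ : ∃ l' z, l = l' ++ [z] := by
        have hne : l ≠ [] := by rintro rfl; simp at hl
        exact ⟨l.dropLast, l.getLast hne, (List.dropLast_append_getLast hne).symm⟩
      have hl' : l'.length = k := by simpa using hl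
      have hw' : x.w + W l' + 3 + z.w ≤ N := by simp at hw; omega
      apply finOrder_conj (g := D.v z)
      have e : D.v z * (D.v x * D.PP (l' ++ [z])) * (D.v z)⁻¹
          = (D.v z * D.v x) * (D.PP l' * D.a) := by
        rw [PP_append, PP_cons, PP_nil]
        group
      rw [e]
      rcases letter_mul D x z with h | ⟨y, h, hy⟩
      · rw [h, one_mul]
        exact (ih l' hl').1 (by omega)
      · rw [h]
        apply finOrder_conj (g := D.a)
        have e : D.a * (D.v y * (D.PP l' * D.a)) * D.a⁻¹ = D.PP (y :: l') := by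
          rw [PP_cons]; group
        rw [e]
        exact hN _ (by simp; omega)

/-- value of an optional letter of the Klein four group -/
def Data.kv : Option L → P
  | none => 1
  | some x => D.v x

/-- weight of an optional letter of the Klein four group -/
def kw : Option L → ℕ
  | none => 0
  | some x => x.w

/-- normal form -/
lemma nf (v : List (Option L)) : ∃ (x0 : Option L) (l : List L) (e : Bool),
    D.wv v = D.kv x0 * D.PP l * (if e then D.a else 1) ∧
      kw x0 + W l + (if e then 3 else 0) ≤ ww v := by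
  induction v with
  | nil => exact ⟨none, [], false, by simp [Data.kv], by simp [kw]⟩
  | cons t v ih =>
    obtain ⟨x0, l, e, h1, h2⟩ := ih
    cases t with
    | none =>
      cases x0 with
      | some y =>
        refine ⟨none, y :: l, e, ?_, ?_⟩
        · rw [wv_cons, h1]; simp [Data.kv, Data.ov, mul_assoc]
        · simp [kw, ow] at h2 ⊢; omega
      | none =>
        cases l with
        | nil =>
          refine ⟨none, [], !e, ?_, ?_⟩
          · rw [wv_cons, h1]
            cases e
            · simp [Data.kv, Data.ov]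
            · simp [Data.kv, Data.ov, D.aa]
          · cases e <;> simp [kw, ow] at h2 ⊢
        | cons y l =>
          refine ⟨some y, l, e, ?_, ?_⟩
          · rw [wv_cons, h1]
            simp only [Data.kv, Data.ov, PP_cons, one_mul]
            rw [← mul_assoc, ← mul_assoc, ← mul_assoc, D.aa, one_mul]
          · simp [kw, ow] at h2 ⊢; omega
    | some y =>
      cases x0 with
      | none =>
        refine ⟨some y, l, e, ?_, ?_⟩
        · rw [wv_cons, h1]; simp [Data.kv, Data.ov, mul_assoc]
        · simp [kw, ow] at h2 ⊢; omega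
      | some x =>
        rcases letter_mul D x y with h | ⟨z, h, hz⟩
        · refine ⟨none, l, e, ?_, ?_⟩
          · rw [wv_cons, h1]; simp only [Data.kv, Data.ov, one_mul]
            rw [← mul_assoc, ← mul_assoc, h, one_mul]
          · simp [kw, ow] at h2 ⊢; omega
        · refine ⟨some z, l, e, ?_, ?_⟩
          · rw [wv_cons, h1]; simp only [Data.kv, Data.ov]
            rw [← mul_assoc, ← mul_assoc, h]
          · simp [kw, ow] at h2 ⊢; omega

lemma red (N : ℕ) (hN : ∀ l, W l ≤ N → IsOfFinOrder (D.PP l)) (v : List (Option L))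
    (hv : ww v ≤ N) : IsOfFinOrder (D.wv v) := by
  obtain ⟨x0, l, e, h1, h2⟩ := nf D v
  rw [h1]
  cases x0 with
  | none =>
    cases e
    · simp only [Data.kv, kw, one_mul] at h2 ⊢
      simpa using hN l (by simp at h2; omega)
    · simp only [Data.kv, kw, one_mul] at h2 ⊢
      simpa using (cyc D N hN _ l rfl).1 (by simp at h2; omega)
  | some x =>
    cases e
    · simp only [Data.kv, kw] at h2 ⊢
      simpa using (cyc D N hN _ l rfl).2 x (by simp at h2; omega)
    · simp only [Data.kv, kw, if_true] at h2 ⊢
      apply finOrder_conj (g := D.a)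
      have e : D.a * (D.v x * D.PP l * D.a) * D.a⁻¹ = D.PP (x :: l) := by
        simp only [PP_cons]; group
      rw [e]
      exact hN _ (by simp; omega)

lemma PP_fin : ∀ N : ℕ, ∀ l, W l ≤ N → IsOfFinOrder (D.PP l) := by
  intro N
  induction N using Nat.strong_induction_on with
  | _ N ih =>
    intro l hl
    by_cases hl0 : l = []
    · subst hl0; simp
    have hlen : 1 ≤ l.length := List.length_pos_iff.2 hl0
    have hfw := f_weight l
    have hN1 : N - 1 < N := by omega
    have hred := red D (N - 1) (ih (N - 1) hN1)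
    rcases Nat.mod_two_eq_zero_or_one l.length with h | h
    · rw [(PP_f D l).1 h]
      exact torsion_ψ D (hred _ (by omega)) (hred _ (by omega))
    · have h2 : IsOfFinOrder (D.PP l ^ 2) := by
        rw [pow_two, (PP_f D l).2 h]
        have : D.a * D.ψ (D.wv (f l).1) (D.wv (f l).2) * (D.a * D.ψ (D.wv (f l).1) (D.wv (f l).2))
            = D.ψ (D.wv ((f l).2 ++ (f l).1)) (D.wv ((f l).1 ++ (f l).2)) := by
          calc D.a * D.ψ (D.wv (f l).1) (D.wv (f l).2) *
                (D.a * D.ψ (D.wv (f l).1) (D.wv (f l).2))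
              = D.ψ (D.wv (f l).2) (D.wv (f l).1) * (D.a * D.a) *
                  D.ψ (D.wv (f l).1) (D.wv (f l).2) := by
                rw [D.swap]; simp only [mul_assoc]; rw [← D.swap]
            _ = _ := by rw [D.aa, mul_one, D.ψ_mul]; simp
        rw [this]
        exact torsion_ψ D (hred _ (by rw [ww_append]; omega)) (hred _ (by rw [ww_append]; omega))
      exact (isOfFinOrder_pow.1 h2).resolve_right (by norm_num)

/-- every product of the letters has finite order -/
lemma wv_fin (v : List (Option L)) : IsOfFinOrder (D.wv v) :=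
  red D (ww v) (PP_fin D _) v le_rfl

/-- the group generated by the letters is torsion -/
theorem closure_fin {g : P} (hg : g ∈ Subgroup.closure (Set.range D.ov)) : IsOfFinOrder g := by
  have : ∃ v, D.wv v = g := by
    induction hg using Subgroup.closure_induction with
    | mem x hx =>
      obtain ⟨t, rfl⟩ := hx
      exact ⟨[t], by simp⟩
    | one => exact ⟨[], by simp⟩
    | mul x y _ _ hx hy =>
      obtain ⟨u, rfl⟩ := hx
      obtain ⟨v, rfl⟩ := hy
      exact ⟨u ++ v, by simp⟩
    | inv x _ hx =>
      obtain ⟨u, rfl⟩ := hx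
      refine ⟨u.reverse, ?_⟩
      rw [Data.wv, Data.wv, List.prod_inv_reverse, List.map_map, List.map_reverse]
      congr 2
      apply List.map_congr_left
      intro t _
      cases t with
      | none => exact (a_inv D).symm
      | some x => exact (v_inv D x).symm
  obtain ⟨v, rfl⟩ := this
  exact wv_fin D v

end Pool.Agent.R701.Grig
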