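import Mathlib
import Pool.Agent.R701.Grig

/-!
The concrete permutations of the binary tree `List Bool` realising the Grigorchuk group, and the
piecewise permutation `τ` such that `a * τ` has infinite order.
-/

namespace Pool.Agent.R701.Grig

open Equiv

/-- the binary tree -/
abbrev X := List Bool

/-- swap of the two subtrees -/
def af : X → X
  | [] => []
  | r :: w => (!r) :: w

lemma af_af (x : X) : af (af x) = x := by
  cases x <;> simp [af]

/-- swap of the two subtrees, as a permutation -/
def A : Perm X := ⟨af, af, af_af, af_af⟩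

@[simp] lemma A_nil : A [] = [] := rfl
@[simp] lemma A_cons (r : Bool) (w : X) : A (r :: w) = (!r) :: w := rfl

/-- the pair `(g, h)` acting on the two subtrees -/
def pairf (g h : X → X) : X → X
  | [] => []
  | false :: w => false :: g w
  | true :: w => true :: h w

/-- the pair `(g, h)` acting on the two subtrees, as a permutation -/
def pair (g h : Perm X) : Perm X where
  toFun := pairf g h
  invFun := pairf g.symm h.symm
  left_inv := by
    rintro (_ | ⟨_ | _, w⟩) <;> simp [pairf]
  right_inv := by
    rintro (_ | ⟨_ | _, w⟩) <;> simp [pairf]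

@[simp] lemma pair_nil (g h : Perm X) : pair g h [] = [] := rfl
@[simp] lemma pair_false (g h : Perm X) (w : X) : pair g h (false :: w) = false :: g w := rfl
@[simp] lemma pair_true (g h : Perm X) (w : X) : pair g h (true :: w) = true :: h w := rfl

/-- `τ = (τ, a)` -/
def τf : X → X
  | [] => []
  | false :: w => false :: τf w
  | true :: w => true :: af w

lemma τf_τf (x : X) : τf (τf x) = x := by
  induction x with
  | nil => rfl
  | cons r w ih =>
    cases r
    · simp [τf, ih]
    · simp [τf, af_af]

/-- `τ = (τ, a)` as a permutation -/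
def τ : Perm X := ⟨τf, τf, τf_τf, τf_τf⟩

lemma τ_eq : τ = pair τ A := by
  ext1 x
  rcases x with (_ | ⟨_ | _, w⟩) <;> rfl

@[simp] lemma τ_nil : τ [] = [] := rfl
@[simp] lemma τ_false (w : X) : τ (false :: w) = false :: τ w := rfl
@[simp] lemma τ_true (w : X) : τ (true :: w) = true :: A w := rfl

/-- number of leading `false`s modulo 3 -/
def κ : X → ZMod 3
  | [] => 0
  | false :: w => κ w + 1
  | true :: _ => 0

lemma κ_τ (x : X) : κ (τ x) = κ x := by
  change κ (τf x) = κ x
  induction x with
  | nil => rfl
  | cons r w ih =>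
    cases r
    · simp [τf, κ, ih]
    · simp [τf, κ]

/-- the permutation which is trivial where `κ = i` and `τ` elsewhere -/
def B (i : ZMod 3) : Perm X where
  toFun x := if κ x = i then x else τ x
  invFun x := if κ x = i then x else τ x
  left_inv x := by
    by_cases h : κ x = i
    · simp [h]
    · simp only [h, if_false, κ_τ]; exact τf_τf x
  right_inv x := by
    by_cases h : κ x = i
    · simp [h]
    · simp only [h, if_false, κ_τ]; exact τf_τf x

lemma B_apply (i : ZMod 3) (x : X) : B i x = if κ x = i then x else τ x := rfl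

lemma κ_B (i : ZMod 3) (x : X) : κ (B i x) = κ x := by
  rw [B_apply]; split_ifs <;> simp [κ_τ]

lemma B_mul_self (i : ZMod 3) : B i * B i = 1 := by
  ext1 x
  exact (B i).left_inv x

lemma τ_τ (x : X) : τ (τ x) = x := τf_τf x

lemma B_mul (i j k : ZMod 3) (hij : i ≠ j) (hik : i ≠ k) (hjk : j ≠ k) : B i * B j = B k := by
  have hcov : ∀ z : ZMod 3, z = i ∨ z = j ∨ z = k := by
    revert i j k; decide
  ext1 x
  rw [Perm.mul_apply, B_apply i, κ_B, B_apply j, B_apply k]
  rcases hcov (κ x) with h | h | h
  · rw [h]; simp [hij, hik]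
  · rw [h]; simp [hij.symm, hjk]
  · rw [h]; simp [hik.symm, hjk.symm, τ_τ]

/-- `b = B 2`, `c = B 1`, `d = B 0`. -/
def vL : L → Perm X
  | .b => B 2
  | .c => B 1
  | .d => B 0

lemma B2 : B 2 = pair (B 1) A := by
  ext1 x
  rcases x with (_ | ⟨_ | _, w⟩)
  · rw [B_apply]; split_ifs <;> rfl
  · rw [pair_false, B_apply, B_apply, τ_false]
    have : (κ (false :: w) = 2) ↔ (κ w = 1) := by
      simp only [κ]; generalize κ w = z; revert z; decide
    by_cases h : κ w = 1
    · rw [if_pos h, if_pos (this.2 h)]
    · rw [if_neg h, if_neg (fun h' => h (this.1 h'))]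
  · rw [pair_true, B_apply, τ_true, if_neg (by simp only [κ]; decide)]

lemma B1 : B 1 = pair (B 0) A := by
  ext1 x
  rcases x with (_ | ⟨_ | _, w⟩)
  · rw [B_apply]; split_ifs <;> rfl
  · rw [pair_false, B_apply, B_apply, τ_false]
    have : (κ (false :: w) = 1) ↔ (κ w = 0) := by
      simp only [κ]; generalize κ w = z; revert z; decide
    by_cases h : κ w = 0
    · rw [if_pos h, if_pos (this.2 h)]
    · rw [if_neg h, if_neg (fun h' => h (this.1 h'))]
  · rw [pair_true, B_apply, τ_true, if_neg (by simp only [κ]; decide)]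

lemma B0 : B 0 = pair (B 2) 1 := by
  ext1 x
  rcases x with (_ | ⟨_ | _, w⟩)
  · rw [B_apply]; split_ifs <;> rfl
  · rw [pair_false, B_apply, B_apply, τ_false]
    have : (κ (false :: w) = 0) ↔ (κ w = 2) := by
      simp only [κ]; generalize κ w = z; revert z; decide
    by_cases h : κ w = 2
    · rw [if_pos h, if_pos (this.2 h)]
    · rw [if_neg h, if_neg (fun h' => h (this.1 h'))]
  · rw [pair_true, B_apply, if_pos (show κ (true :: w) = 0 from rfl)]; rfl

/-- the Grigorchuk data on the binary tree -/
def data : Data (Perm X) where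
  a := A
  v := vL
  ψ := pair
  ψ_one := by ext1 x; rcases x with (_ | ⟨_ | _, w⟩) <;> simp
  ψ_mul g h g' h' := by ext1 x; rcases x with (_ | ⟨_ | _, w⟩) <;> simp
  aa := by ext1 x; exact af_af x
  vv x := by cases x <;> exact B_mul_self _
  bc := B_mul _ _ _ (by decide) (by decide) (by decide)
  cb := B_mul _ _ _ (by decide) (by decide) (by decide)
  bd := B_mul _ _ _ (by decide) (by decide) (by decide)
  db := B_mul _ _ _ (by decide) (by decide) (by decide)
  cd := B_mul _ _ _ (by decide) (by decide) (by decide)
  dc := B_mul _ _ _ (by decide) (by decide) (by decide)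
  swap g h := by ext1 x; rcases x with (_ | ⟨_ | _, w⟩) <;> simp
  hb := B2
  hc := B1
  hd := B0

/-- the (first) Grigorchuk group -/
def H : Subgroup (Perm X) := Subgroup.closure (Set.range data.ov)

lemma A_mem : A ∈ H := Subgroup.subset_closure ⟨none, rfl⟩
lemma B2_mem : B 2 ∈ H := Subgroup.subset_closure ⟨some .b, rfl⟩
lemma B1_mem : B 1 ∈ H := Subgroup.subset_closure ⟨some .c, rfl⟩

lemma H_torsion (h : H) : IsOfFinOrder h := by
  have := closure_fin data h.2
  rw [isOfFinOrder_iff_pow_eq_one] at this ⊢
  obtain ⟨n, hn, h'⟩ := this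
  exact ⟨n, hn, Subtype.ext (by simpa using h')⟩

/-- `a * τ` has infinite order -/
lemma pow_ne (n : ℕ) (hn : 0 < n) : (A * τ) ^ n ≠ 1 := by
  have hsq : (A * τ) * (A * τ) = pair (A * τ) (τ * A) := by
    ext1 x
    rcases x with (_ | ⟨_ | _, w⟩) <;> simp
  have hpair : ∀ (g h : Perm X) (k : ℕ), (pair g h) ^ k = pair (g ^ k) (h ^ k) := by
    intro g h k
    induction k with
    | zero => rw [pow_zero, pow_zero, pow_zero]; exact data.ψ_one.symm
    | succ k ih => rw [pow_succ, ih, pow_succ, pow_succ]; exact data.ψ_mul _ _ _ _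
  have hf : (A * τ) [false] = [true] := rfl
  have ht : (A * τ) [true] = [false] := rfl
  have hodd : ∀ k, ((A * τ) ^ (2 * k)) [false] = [false] := by
    intro k
    induction k with
    | zero => rfl
    | succ k ih => rw [mul_add, pow_add, Perm.mul_apply]; exact ih
  induction n using Nat.strong_induction_on with
  | _ n ih =>
    intro h
    rcases Nat.even_or_odd' n with ⟨k, rfl | rfl⟩
    · rw [pow_mul, pow_two, hsq, hpair] at h
      apply ih k (by omega) (by omega)
      ext1 w
      have := congrArg (fun g : Perm X => g (false :: w)) h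
      simpa using this
    · rw [pow_succ'] at h
      have := congrArg (fun g : Perm X => g [false]) h
      rw [Perm.mul_apply] at this
      rw [hodd] at this
      rw [hf] at this
      simp at this

end Pool.Agent.R701.Grig
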