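import Mathlib

/-!
# Integer-valued polynomials on algebras: integrality

Let `D` be an integrally closed domain with fraction field `K`, `B` a finite-dimensional `K`-algebra
and `A` a `D`-subalgebra of `B` (think of `A` finite over `D` and spanning `B`).  We show that every
polynomial `f ∈ K[X]` with `f(a)` integral over `D` for all `a ∈ A` satisfies a monic polynomial
equation `φ(f) = g` with `φ ∈ ℤ[X]` monic and `g ∈ Int_K(A)`.
-/

open Polynomial

namespace Pool.Agent.R701.IntVal

variable (D : Type*) (K : Type*) [CommRing D] [Field K] [Algebra D K]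
  {B : Type*} [Ring B] [Algebra K B] [Algebra D B] [IsScalarTower D K B]

/-- `Int_K(A)`: the ring of polynomials `f ∈ K[X]` with `f(a) ∈ A` for every `a ∈ A`, as a
`D`-subalgebra of `K[X]`.  Here `A` is a `D`-subalgebra of the `K`-algebra `B`. -/
def IntK (A : Subalgebra D B) : Subalgebra D K[X] where
  carrier := {f | ∀ a ∈ A, aeval a f ∈ A}
  mul_mem' := fun {f g} hf hg a ha => by rw [map_mul]; exact mul_mem (hf a ha) (hg a ha)
  add_mem' := fun {f g} hf hg a ha => by rw [map_add]; exact add_mem (hf a ha) (hg a ha)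
  algebraMap_mem' := fun r a ha => by
    rw [IsScalarTower.algebraMap_apply D K K[X], Polynomial.algebraMap_apply, Algebra.algebraMap_self,
      RingHom.id_apply, aeval_C, ← IsScalarTower.algebraMap_apply D K B]
    exact A.algebraMap_mem r

/-- `Int_K(A, A')`: the set of polynomials `f ∈ K[X]` such that `f(a)` is integral over `D` for every
`a ∈ A`, i.e. `f(A) ⊆ A'`, where `A'` is the set of the elements of `B` that are integral over
`D`. -/
def IntKPrime (A : Subalgebra D B) : Set K[X] := {f | ∀ a ∈ A, IsIntegral D (aeval a f)}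

variable {D K}

theorem mem_IntK {A : Subalgebra D B} {f : K[X]} : f ∈ IntK D K A ↔ ∀ a ∈ A, aeval a f ∈ A :=
  Iff.rfl

omit [Algebra D K] [IsScalarTower D K B] in
theorem mem_IntKPrime {A : Subalgebra D B} {f : K[X]} :
    f ∈ IntKPrime D K A ↔ ∀ a ∈ A, IsIntegral D (aeval a f) := Iff.rfl

section Lagrange

variable [IsDomain D] [FaithfulSMul D K]

/-- Lagrange interpolation clears denominators. -/
theorem lagrange_clear (f : K[X]) (m : ℕ) (hf : f.natDegree ≤ m) (v : ℕ → D)
    (hv : Set.InjOn v (Finset.range (m + 1)))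
    (hfv : ∀ i ∈ Finset.range (m + 1), ∃ d : D, algebraMap D K d = f.eval (algebraMap D K (v i))) :
    ∃ F : D[X], F.map (algebraMap D K) =
      C (algebraMap D K (∏ i ∈ Finset.range (m + 1), ∏ j ∈ (Finset.range (m + 1)).erase i,
        (v i - v j))) * f := by
  classical
  have hinj : Function.Injective (algebraMap D K) := FaithfulSMul.algebraMap_injective D K
  choose! r hr using hfv
  set s := Finset.range (m + 1) with hs
  refine ⟨∑ i ∈ s, C (r i * ∏ k ∈ s.erase i, ∏ j ∈ s.erase k, (v k - v j)) *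
    ∏ j ∈ s.erase i, (X - C (v j)), ?_⟩
  have hv' : Set.InjOn (fun i => algebraMap D K (v i)) s := fun i hi j hj h =>
    hv hi hj (hinj h)
  have hdeg : f.degree < s.card := by
    rw [hs, Finset.card_range]
    exact lt_of_le_of_lt degree_le_natDegree (by exact_mod_cast Nat.lt_succ_of_le hf)
  have hf1 := Lagrange.eq_interpolate hv' hdeg
  rw [Lagrange.interpolate_apply] at hf1
  conv_rhs => rw [hf1]
  rw [Finset.mul_sum, Polynomial.map_sum]
  refine Finset.sum_congr rfl fun i hi => ?_
  rw [Polynomial.map_mul, Polynomial.map_prod, Polynomial.map_C, map_mul, hr i hi, Lagrange.basis]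
  have h1 : ∀ j ∈ s.erase i, Lagrange.basisDivisor (algebraMap D K (v i)) (algebraMap D K (v j)) =
      C ((algebraMap D K (v i - v j))⁻¹) * (X - C (algebraMap D K (v j))) := by
    intro j _
    rw [Lagrange.basisDivisor, map_sub]
  rw [Finset.prod_congr rfl h1, Finset.prod_mul_distrib, ← Finset.mul_prod_erase s _ hi, map_mul]
  have h2 : ∀ j ∈ s.erase i, ((X - C (v j)).map (algebraMap D K)) = X - C (algebraMap D K (v j)) := by
    intro j _
    simp
  rw [Finset.prod_congr rfl h2]
  have h3 : (C (algebraMap D K (∏ j ∈ s.erase i, (v i - v j))) : K[X]) *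
      ∏ j ∈ s.erase i, C ((algebraMap D K (v i - v j))⁻¹) = 1 := by
    rw [map_prod, map_prod, ← Finset.prod_mul_distrib]
    apply Finset.prod_eq_one
    intro j hj
    rw [← C_mul, mul_inv_cancel₀, C_1]
    intro h0
    have h4 : v i - v j = 0 := by
      apply hinj
      rw [h0, map_zero]
    exact (Finset.ne_of_mem_erase hj).symm (hv hi (Finset.mem_of_mem_erase hj) (sub_eq_zero.mp h4))
  rw [map_mul (algebraMap D K), C_mul]
  linear_combination (-C (eval (algebraMap D K (v i)) f) *
    C (algebraMap D K (∏ k ∈ s.erase i, ∏ j ∈ s.erase k, (v k - v j))) *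
    ∏ j ∈ s.erase i, (X - C (algebraMap D K (v j)))) * h3

end Lagrange

section Local

/-- Multiplying `p(α)` by a power of `c` with `c α ∈ A`. -/
theorem pow_smul_aeval_mem (A : Subalgebra D B) {α : B} {c : D} (hc : c • α ∈ A) (p : D[X]) :
    ∀ N : ℕ, p.natDegree ≤ N → c ^ N • aeval α p ∈ A := by
  intro N hN
  rw [aeval_eq_sum_range, Finset.smul_sum]
  refine sum_mem fun i hi => ?_
  have hi' : i ≤ N := by
    have := Finset.mem_range.mp hi
    omega
  have h1 : c ^ N • p.coeff i • α ^ i = (p.coeff i * c ^ (N - i)) • (c • α) ^ i := by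
    rw [_root_.smul_pow, smul_smul, smul_smul, mul_comm (p.coeff i) (c ^ (N - i)), mul_assoc,
      mul_comm (p.coeff i) (c ^ i), ← mul_assoc, ← pow_add, Nat.sub_add_cancel hi']
  rw [h1]
  exact A.smul_mem (pow_mem hc i) _

/-- An element is in `A` if it is in `A` locally at all maximal ideals. -/
theorem mem_of_local (A : Subalgebra D B) (x : B)
    (h : ∀ P : Ideal D, P.IsMaximal → ∃ s : D, s ∉ P ∧ s • x ∈ A) : x ∈ A := by
  let I : Ideal D :=
    { carrier := {s | s • x ∈ A}
      add_mem' := fun {a b} ha hb => by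
        simp only [Set.mem_ofPred_eq] at ha hb ⊢
        rw [add_smul]; exact add_mem ha hb
      zero_mem' := by simp
      smul_mem' := fun c s hs => by
        simp only [Set.mem_ofPred_eq] at hs ⊢
        rw [smul_eq_mul, mul_smul]; exact A.smul_mem hs c }
  have hI : I = ⊤ := by
    by_contra hne
    obtain ⟨P, hP, hIP⟩ := Ideal.exists_le_maximal I hne
    obtain ⟨s, hs, hsx⟩ := h P hP
    exact hs (hIP hsx)
  have : (1 : D) ∈ I := by rw [hI]; trivial
  have h1 : (1 : D) • x ∈ A := this
  rwa [one_smul] at h1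

/-- The universal polynomial killing all elements of all rings with at most `M` elements. -/
theorem finite_ring_pow {S : Type*} [CommRing S] [Finite S] {M : ℕ} (hM : Nat.card S ≤ M) (x : S) :
    x ^ (M + M.factorial) - x ^ M = 0 := by
  classical
  have := Fintype.ofFinite S
  have h1 : Fintype.card S < Fintype.card (Fin (M + 1)) := by
    rw [Fintype.card_fin, ← Nat.card_eq_fintype_card]; omega
  obtain ⟨i, j, hij, hx⟩ := Fintype.exists_ne_map_eq_of_card_lt (fun i : Fin (M + 1) => x ^ (i : ℕ)) h1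
  wlog hlt : (i : ℕ) < j generalizing i j
  · exact this j i hij.symm hx.symm (lt_of_le_of_ne (not_lt.mp hlt)
      (fun h => hij (Fin.ext h.symm)))
  change x ^ (i : ℕ) = x ^ (j : ℕ) at hx
  have hj : (j : ℕ) ≤ M := by have := j.isLt; omega
  set d := (j : ℕ) - i with hd
  have hd1 : 0 < d := by omega
  have hd2 : d ≤ M := by omega
  -- `x ^ (i + k d) = x ^ i`
  have h2 : ∀ k : ℕ, x ^ (M + k * d) = x ^ M := by
    intro k
    induction k with
    | zero => simp
    | succ k ih =>
      have h3 : M + (k + 1) * d = (M + k * d - i) + (i + d) := by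
        have : (k + 1) * d = k * d + d := by ring
        omega
      have h4 : i + d = (j : ℕ) := by omega
      rw [h3, pow_add, h4, ← hx, ← pow_add]
      have h5 : M + k * d - ↑i + ↑i = M + k * d := by omega
      rw [h5, ih]
  obtain ⟨k, hk⟩ := Nat.dvd_factorial hd1 hd2
  rw [hk, mul_comm d k, h2, sub_self]

/-- Reduction modulo `P` and a monic polynomial. -/
theorem exists_rem (P : Ideal D) [P.IsMaximal] [Finite (D ⧸ P)] {m n : ℕ} (hm : 1 ≤ m)
    (hq : Nat.card (D ⧸ P) ≤ m) (μ : D[X]) (hμ : μ.Monic) (hn : μ.natDegree ≤ n) :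
    ∀ i, ((X ^ (m ^ n + (m ^ n).factorial) - X ^ (m ^ n) : D[X]) %ₘ μ).coeff i ∈ P := by
  set M := m ^ n with hM
  let _ : Field (D ⧸ P) := Ideal.Quotient.field P
  set μ' := μ.map (Ideal.Quotient.mk P) with hμ'
  have hμ'm : μ'.Monic := hμ.map _
  have hdeg : μ'.natDegree = μ.natDegree := hμ.natDegree_map _
  have : Module.Finite (D ⧸ P) (AdjoinRoot μ') := hμ'm.finite_adjoinRoot
  have : Finite (AdjoinRoot μ') := Module.finite_of_finite (D ⧸ P)
  have hcard : Nat.card (AdjoinRoot μ') ≤ M := by
    rw [Module.natCard_eq_pow_finrank (K := D ⧸ P), (AdjoinRoot.powerBasis' hμ'm).finrank,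
      AdjoinRoot.powerBasis'_dim, hdeg]
    calc Nat.card (D ⧸ P) ^ μ.natDegree ≤ m ^ μ.natDegree := Nat.pow_le_pow_left hq _
      _ ≤ m ^ n := Nat.pow_le_pow_right hm hn
  have h1 := finite_ring_pow hcard (AdjoinRoot.root μ')
  have h2 : μ' ∣ (X ^ (M + M.factorial) - X ^ M : (D ⧸ P)[X]) := by
    rw [← AdjoinRoot.mk_eq_zero, map_sub, map_pow, map_pow, AdjoinRoot.mk_X]
    exact h1
  have h3 : ((X ^ (M + M.factorial) - X ^ M : D[X]) %ₘ μ).map (Ideal.Quotient.mk P) = 0 := by
    rw [map_modByMonic _ hμ]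
    simp only [Polynomial.map_sub, Polynomial.map_pow, Polynomial.map_X]
    exact (modByMonic_eq_zero_iff_dvd hμ'm).mpr h2
  intro i
  have h4 := congrArg (fun p => p.coeff i) h3
  simp only [coeff_map, coeff_zero] at h4
  exact Ideal.Quotient.eq_zero_iff_mem.mp h4

/-- The exponent in the bound for the denominators of an integer-valued polynomial. -/
def expo (m : ℕ) : ℕ := ∑ i ∈ Finset.range (m + 1), ∑ j ∈ (Finset.range (m + 1)).erase i, min i j

/-- If `t` lies in the prime `P` then a power `t ^ L`, with `L` depending only on the degree, kills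
the denominators of an integer-valued polynomial locally at `P`. -/
theorem exists_clear [IsDomain D] [FaithfulSMul D K] (P : Ideal D) [hP : P.IsPrime] (f : K[X]) (m : ℕ)
    (hf : f.natDegree ≤ m) (hfD : ∀ d : D, ∃ d' : D, algebraMap D K d' = f.eval (algebraMap D K d))
    (t : D) (ht : t ∈ P) :
    ∃ s : D, s ∉ P ∧ ∃ F : D[X], F.map (algebraMap D K) =
      C (algebraMap D K (s * t ^ (expo m + 1))) * f := by
  classical
  by_cases ht0 : t = 0
  · exact ⟨1, hP.one_notMem, 0, by simp [ht0]⟩
  -- the factors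
  let r : ℕ → ℕ → D := fun i j => if i < j then 1 - t ^ (j - i) else t ^ (i - j) - 1
  have hr : ∀ i j, i ≠ j → r i j ∉ P := by
    intro i j hij hmem
    have h1 : ∀ k, 0 < k → t ^ k ∈ P := fun k hk => Ideal.pow_mem_of_mem P ht k hk
    simp only [r] at hmem
    split_ifs at hmem with h
    · apply hP.one_notMem
      have := P.add_mem hmem (h1 (j - i) (by omega))
      rwa [sub_add_cancel] at this
    · apply hP.one_notMem
      have := P.sub_mem (h1 (i - j) (by omega)) hmem
      rwa [sub_sub_cancel] at this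
  have hfac : ∀ i j, i ≠ j → t ^ i - t ^ j = t ^ (min i j) * r i j := by
    intro i j hij
    simp only [r]
    split_ifs with h
    · obtain ⟨k, rfl⟩ := Nat.exists_eq_add_of_le h.le
      rw [min_eq_left h.le, Nat.add_sub_cancel_left, pow_add]; ring
    · have h' : j < i := by omega
      obtain ⟨k, rfl⟩ := Nat.exists_eq_add_of_le h'.le
      rw [min_eq_right h'.le, Nat.add_sub_cancel_left, pow_add]; ring
  have hinj : Set.InjOn (fun i => t ^ i) (Finset.range (m + 1)) := by
    intro i _ j _ hij
    by_contra hne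
    have h1 := hfac i j hne
    simp only at hij
    rw [hij, sub_self] at h1
    rcases mul_eq_zero.mp h1.symm with h2 | h2
    · exact ht0 (pow_eq_zero_iff (n := min i j) (by intro h0; rw [h0] at h2; simp at h2) |>.mp h2)
    · exact hr i j hne (by rw [h2]; exact P.zero_mem)
  obtain ⟨F, hF⟩ := lagrange_clear f m hf (fun i => t ^ i) hinj (fun i _ => hfD _)
  refine ⟨∏ i ∈ Finset.range (m + 1), ∏ j ∈ (Finset.range (m + 1)).erase i, r i j, ?_,
    C t * F, ?_⟩
  · intro hmem
    obtain ⟨i, _, h1⟩ := (hP.prod_mem_iff).mp hmem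
    obtain ⟨j, hj, h2⟩ := (hP.prod_mem_iff).mp h1
    exact hr i j (Finset.ne_of_mem_erase hj).symm h2
  · have h3 : ∏ i ∈ Finset.range (m + 1), ∏ j ∈ (Finset.range (m + 1)).erase i, (t ^ i - t ^ j) =
        t ^ expo m * ∏ i ∈ Finset.range (m + 1), ∏ j ∈ (Finset.range (m + 1)).erase i, r i j := by
      rw [expo, ← Finset.prod_pow_eq_pow_sum, ← Finset.prod_mul_distrib]
      refine Finset.prod_congr rfl fun i _ => ?_
      rw [← Finset.prod_pow_eq_pow_sum, ← Finset.prod_mul_distrib]
      refine Finset.prod_congr rfl fun j hj => ?_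
      exact hfac i j (Finset.ne_of_mem_erase hj).symm
    rw [Polynomial.map_mul, hF, h3, Polynomial.map_C, ← mul_assoc, ← C_mul, ← map_mul]
    congr 3
    ring

/-- The residue field is large: denominators are units locally. -/
theorem clear_of_large [IsDomain D] [FaithfulSMul D K] (P : Ideal D) [hP : P.IsPrime] (f : K[X])
    (m : ℕ) (hf : f.natDegree ≤ m)
    (hfD : ∀ d : D, ∃ d' : D, algebraMap D K d' = f.eval (algebraMap D K d))
    (hlarge : ¬ (Finite (D ⧸ P) ∧ Nat.card (D ⧸ P) ≤ m)) :
    ∃ s : D, s ∉ P ∧ ∃ F : D[X], F.map (algebraMap D K) = C (algebraMap D K s) * f := by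
  classical
  obtain ⟨S, hS⟩ : ∃ S : Finset (D ⧸ P), S.card = m + 1 := by
    by_cases hfin : Finite (D ⧸ P)
    · have hcard : m + 1 ≤ Nat.card (D ⧸ P) := by
        by_contra h
        exact hlarge ⟨hfin, by omega⟩
      have := Fintype.ofFinite (D ⧸ P)
      rw [Nat.card_eq_fintype_card, ← Finset.card_univ] at hcard
      obtain ⟨S, _, hS⟩ := Finset.exists_subset_card_eq hcard
      exact ⟨S, hS⟩
    · have : Infinite (D ⧸ P) := not_finite_iff_infinite.mp hfin
      exact Infinite.exists_subset_card_eq _ (m + 1)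
  let e := (S.equivFinOfCardEq hS).symm
  let v : ℕ → D := fun i => if h : i < m + 1 then Quotient.out (e ⟨i, h⟩ : D ⧸ P) else 0
  have hv : ∀ i (h : i < m + 1), Ideal.Quotient.mk P (v i) = (e ⟨i, h⟩ : D ⧸ P) := by
    intro i h
    simp only [v, h, dif_pos]
    exact Quotient.out_eq _
  have hvP : ∀ i ∈ Finset.range (m + 1), ∀ j ∈ Finset.range (m + 1), i ≠ j → v i - v j ∉ P := by
    intro i hi j hj hij hmem
    have h1 := Ideal.Quotient.eq.mpr hmem
    rw [hv i (Finset.mem_range.mp hi), hv j (Finset.mem_range.mp hj)] at h1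
    have h2 := e.injective (Subtype.ext h1)
    exact hij (Fin.mk.inj_iff.mp h2)
  have hinj : Set.InjOn v (Finset.range (m + 1)) := by
    intro i hi j hj h
    by_contra hne
    exact hvP i hi j hj hne (by rw [h, sub_self]; exact P.zero_mem)
  obtain ⟨F, hF⟩ := lagrange_clear f m hf v hinj (fun i _ => hfD _)
  refine ⟨_, ?_, F, hF⟩
  intro hmem
  obtain ⟨i, hi, h1⟩ := (hP.prod_mem_iff).mp hmem
  obtain ⟨j, hj, h2⟩ := (hP.prod_mem_iff).mp h1
  exact hvP i hi j (Finset.mem_of_mem_erase hj) (Finset.ne_of_mem_erase hj).symm h2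

/-- From a polynomial identity over `D` to membership in `A`. -/
theorem smul_aeval_mem (A : Subalgebra D B) {f : K[X]} {s : D} {F : D[X]}
    (hF : F.map (algebraMap D K) = C (algebraMap D K s) * f) {a : B} (ha : a ∈ A) :
    s • aeval a f ∈ A := by
  have h1 : aeval a F = s • aeval a f := by
    rw [← aeval_map_algebraMap K a F, hF, map_mul, aeval_C, ← IsScalarTower.algebraMap_apply D K B,
      Algebra.smul_def]
  rw [← h1]
  have h2 : aeval a F = ((aeval (⟨a, ha⟩ : A) F : A) : B) := by
    have h3 := aeval_algHom_apply A.val (⟨a, ha⟩ : A) F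
    exact h3
  rw [h2]
  exact Subtype.mem _

end Local

section Main

variable [IsDomain D] [IsIntegrallyClosed D] [IsFractionRing D K] [FiniteDimensional K B]

omit [IsDomain D] [FiniteDimensional K B] in
/-- The values of `f ∈ Int_K(A, A')` on `D` are in `D`. -/
theorem eval_mem_base [Nontrivial B] (A : Subalgebra D B) {f : K[X]} (hf : f ∈ IntKPrime D K A)
    (d : D) : ∃ d' : D, algebraMap D K d' = f.eval (algebraMap D K d) := by
  have h1 : IsIntegral D (aeval (algebraMap D B d) f) := hf _ (A.algebraMap_mem d)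
  rw [IsScalarTower.algebraMap_apply D K B, aeval_algebraMap_apply] at h1
  have h2 : IsIntegral D (aeval (algebraMap D K d) f) :=
    (isIntegral_algebraMap_iff (FaithfulSMul.algebraMap_injective K B)).mp h1
  rw [← coe_aeval_eq_eval]
  exact IsIntegrallyClosed.isIntegral_iff.mp h2

omit [IsDomain D] in
/-- Integral elements of `B` have a monic equation over `D` of degree at most `dim B`. -/
theorem exists_min (α : B) (hα : IsIntegral D α) :
    ∃ μ : D[X], μ.Monic ∧ μ.natDegree ≤ Module.finrank K B ∧ aeval α μ = 0 := by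
  obtain ⟨h, hh, hα'⟩ := hα
  have h1 : minpoly K α ∣ h.map (algebraMap D K) := by
    apply minpoly.dvd
    rw [aeval_map_algebraMap]
    exact hα'
  obtain ⟨μ, hμ⟩ := IsIntegrallyClosed.eq_map_mul_C_of_dvd K hh h1
  have hmin : (minpoly K α).Monic := minpoly.monic (Algebra.IsIntegral.isIntegral α)
  rw [hmin.leadingCoeff, C_1, mul_one] at hμ
  have hinj : Function.Injective (algebraMap D K) := IsFractionRing.injective D K
  refine ⟨μ, ?_, ?_, ?_⟩
  · apply Polynomial.monic_of_injective hinj
    rw [hμ]; exact hmin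
  · rw [← natDegree_map_eq_of_injective hinj, hμ]
    exact minpoly.natDegree_le α
  · rw [← aeval_map_algebraMap K α μ, hμ, minpoly.aeval]

/-- **Key theorem.**  For `f ∈ Int_K(A, A')` there is a monic polynomial `φ` with integer
coefficients, of positive degree, such that `φ(f) ∈ Int_K(A)`. -/
theorem exists_monic_comp_mem [Nontrivial B] (A : Subalgebra D B) {f : K[X]}
    (hf : f ∈ IntKPrime D K A) :
    ∃ φ : ℤ[X], φ.Monic ∧ 0 < φ.natDegree ∧ aeval f φ ∈ IntK D K A := by
  classical
  set n := Module.finrank K B with hn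
  set m := f.natDegree + 1 with hm
  set M := m ^ n with hM
  set L := expo m + 1 with hL
  set ψ : ℤ[X] := X ^ (M + M.factorial) - X ^ M with hψ
  have hfact : 0 < M.factorial := Nat.factorial_pos M
  have hψm : ψ.Monic := by
    rw [hψ]
    apply monic_X_pow_sub
    rw [degree_X_pow]
    exact_mod_cast (by omega : M < M + M.factorial)
  have hψd : ψ.natDegree = M + M.factorial := by
    rw [hψ, natDegree_sub_eq_left_of_natDegree_lt]
    · exact natDegree_X_pow _
    · rw [natDegree_X_pow, natDegree_X_pow]; omega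
  set N := n * (L * n) + 1 with hN
  refine ⟨ψ ^ N, hψm.pow N, ?_, ?_⟩
  · rw [hψm.natDegree_pow, hψd]
    positivity
  intro a ha
  set α := aeval a f with hα
  have hfD := eval_mem_base A hf
  obtain ⟨μ, hμm, hμd, hμα⟩ := exists_min (K := K) α (hf a ha)
  have hval : aeval a (aeval f (ψ ^ N)) = aeval α ((ψ ^ N).map (Int.castRingHom D)) := by
    rw [hα]
    have h1 : aeval a (aeval f (ψ ^ N)) = aeval (aeval a f) (ψ ^ N) := by
      exact (Polynomial.aeval_algHom_apply
        (((aeval a : K[X] →ₐ[K] B) : K[X] →+* B).toIntAlgHom) f (ψ ^ N)).symm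
    rw [h1, ← algebraMap_int_eq, aeval_map_algebraMap]
  rw [hval, Polynomial.map_pow]
  apply mem_of_local
  intro P hP
  by_cases hlarge : Finite (D ⧸ P) ∧ Nat.card (D ⧸ P) ≤ m
  · obtain ⟨hfin, hcard⟩ := hlarge
    -- reduction modulo `μ`
    set r : D[X] := (X ^ (M + M.factorial) - X ^ M : D[X]) %ₘ μ with hr
    have hrP : ∀ i, r.coeff i ∈ P := exists_rem P (by omega) hcard μ hμm hμd
    have hψr : aeval α (ψ.map (Int.castRingHom D)) = aeval α r := by
      have h1 : ψ.map (Int.castRingHom D) = X ^ (M + M.factorial) - X ^ M := by simp [hψ]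
      rw [h1, hr]
      conv_lhs => rw [← modByMonic_add_div (X ^ (M + M.factorial) - X ^ M : D[X]) μ]
      rw [map_add, map_mul, hμα, zero_mul, add_zero]
    rw [map_pow, hψr, ← map_pow]
    -- the ideal of good polynomials
    let J : Ideal D[X] :=
      { carrier := {h | ∀ g : D[X], ∃ s : D, s ∉ P ∧ s • aeval α (g * h) ∈ A}
        add_mem' := fun {x y} hx hy g => by
          obtain ⟨s, hs, hs'⟩ := hx g
          obtain ⟨t, ht, ht'⟩ := hy g
          refine ⟨s * t, fun h => (hP.isPrime.mem_or_mem h).elim hs ht, ?_⟩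
          rw [mul_add, map_add, smul_add]
          refine add_mem ?_ ?_
          · rw [mul_comm s t, mul_smul]; exact A.smul_mem hs' t
          · rw [mul_smul]; exact A.smul_mem ht' s
        zero_mem' := fun g => ⟨1, hP.isPrime.one_notMem, by simp⟩
        smul_mem' := fun c x hx g => by
          obtain ⟨s, hs, hs'⟩ := hx (g * c)
          refine ⟨s, hs, ?_⟩
          rw [smul_eq_mul, ← mul_assoc]
          exact hs' }
    have hgood : ∀ t ∈ P, ∀ g : D[X], ∃ s : D, s ∉ P ∧ s • aeval α (C (t ^ (L * n)) * g) ∈ A := by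
      intro t ht g
      obtain ⟨s, hs, F, hF⟩ := exists_clear P f m (by omega) hfD t ht
      have h1 := smul_aeval_mem A hF ha
      have h2 : aeval α g = aeval α (g %ₘ μ) := by
        conv_lhs => rw [← modByMonic_add_div g μ]
        rw [map_add, map_mul, hμα, zero_mul, add_zero]
      have h3 : (g %ₘ μ).natDegree ≤ n := by
        by_cases hμ1 : μ = 1
        · rw [hμ1, modByMonic_one]; simp
        · exact (natDegree_modByMonic_lt g hμm hμ1).le.trans hμd
      have h4 := pow_smul_aeval_mem A h1 (g %ₘ μ) n h3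
      refine ⟨s ^ n, fun h => hs (hP.isPrime.mem_of_pow_mem n h), ?_⟩
      rw [map_mul, aeval_C, ← Algebra.smul_def, h2, smul_smul]
      have h5 : s ^ n * t ^ (L * n) = (s * t ^ (expo m + 1)) ^ n := by
        rw [mul_pow, ← pow_mul, ← hL]
      rw [h5]
      exact h4
    have hrJ : r ^ N ∈ J := by
      have h1 : r = ∑ i ∈ Finset.range n, C (r.coeff i) * X ^ i := by
        by_cases hμ1 : μ = 1
        · have h2 : r = 0 := by rw [hr, hμ1, modByMonic_one]
          rw [h2]; simp
        · have h2 : r.natDegree < n := (natDegree_modByMonic_lt _ hμm hμ1).trans_le hμd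
          have h3 := r.as_sum_range' n h2
          simpa [← C_mul_X_pow_eq_monomial] using h3
      have h2 := Ideal.sum_pow_mem_span_pow (Finset.range n) (fun i => C (r.coeff i) * X ^ i : ℕ → D[X])
        (L * n)
      rw [Finset.card_range, ← h1] at h2
      refine (Ideal.span_le.mpr ?_) h2
      rintro _ ⟨i, _, rfl⟩
      intro g
      obtain ⟨s, hs, hs'⟩ := hgood (r.coeff i) (hrP i) (g * C (r.coeff i) * (X ^ i) ^ (L * n + 1))
      refine ⟨s, hs, ?_⟩
      have h3 : g * (C (r.coeff i) * X ^ i) ^ (L * n + 1) =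
          C (r.coeff i ^ (L * n)) * (g * C (r.coeff i) * (X ^ i) ^ (L * n + 1)) := by
        rw [mul_pow, C_pow]; ring
      rw [h3]
      exact hs'
    have h5 := hrJ 1
    rwa [one_mul] at h5
  · obtain ⟨s, hs, F, hF⟩ := clear_of_large P f m (by omega) hfD hlarge
    have h1 := smul_aeval_mem A hF ha
    have h2 := pow_smul_aeval_mem A h1 ((ψ.map (Int.castRingHom D)) ^ N) _ le_rfl
    exact ⟨_, fun h => hs (hP.isPrime.mem_of_pow_mem _ h), h2⟩

/-- Every `f ∈ Int_K(A, A')` is integral over `Int_K(A)`. -/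
theorem isIntegral_of_mem [Nontrivial B] (A : Subalgebra D B) {f : K[X]}
    (hf : f ∈ IntKPrime D K A) : IsIntegral (IntK D K A) f := by
  obtain ⟨φ, hφ, hdeg, hmem⟩ := exists_monic_comp_mem A hf
  refine ⟨φ.map (Int.castRingHom _) - C ⟨_, hmem⟩, ?_, ?_⟩
  · apply Monic.sub_of_left (hφ.map _)
    refine lt_of_le_of_lt degree_C_le ?_
    rw [hφ.degree_map]
    exact natDegree_pos_iff_degree_pos.mp hdeg
  · rw [eval₂_sub, eval₂_C, eval₂_map]
    have h1 : (algebraMap (IntK D K A) K[X]).comp (Int.castRingHom (IntK D K A)) =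
        algebraMap ℤ K[X] := RingHom.ext_int _ _
    rw [h1]
    exact sub_self _

omit [IsIntegrallyClosed D] [IsFractionRing D K] [FiniteDimensional K B] [IsDomain D] in
/-- Every `f ∈ K[X]` that is integral over `Int_K(A)` is in `Int_K(A, A')`, if `A` is integral over
`D`. -/
theorem mem_of_isIntegral (A : Subalgebra D B) (hA : ∀ a ∈ A, IsIntegral D a) {f : K[X]}
    (hf : IsIntegral (IntK D K A) f) : f ∈ IntKPrime D K A := by
  intro a ha
  let ev : K[X] →ₐ[D] B := (aeval a : K[X] →ₐ[K] B).restrictScalars D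
  let C' := K[X] ⧸ RingHom.ker ev
  let mk : K[X] →ₐ[D] C' := Ideal.Quotient.mkₐ D _
  let ι : C' →ₐ[D] B := Ideal.kerLiftAlg ev
  have hι : Function.Injective ι := Ideal.kerLiftAlg_injective ev
  have hιmk : ∀ g : K[X], ι (mk g) = aeval a g := fun g => rfl
  let R' : Subalgebra D C' := (IntK D K A).map mk
  have hR' : Algebra.IsIntegral D R' := by
    refine ⟨?_⟩
    rintro ⟨_, g, hg, rfl⟩
    have h1 : IsIntegral D (mk g) := by
      rw [← isIntegral_algHom_iff ι hι, hιmk]
      exact hA _ (hg a ha)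
    exact (isIntegral_algHom_iff R'.val Subtype.val_injective).mp h1
  have h1 : IsIntegral R' (mk f) := by
    let φ : IntK D K A →+* R' :=
      ((mk.comp (IntK D K A).val).codRestrict R' (fun g => ⟨g, g.2, rfl⟩)).toRingHom
    exact hf.map_of_comp_eq φ mk.toRingHom rfl
  have h2 : IsIntegral D (mk f) := isIntegral_trans _ h1
  rw [← isIntegral_algHom_iff ι hι, hιmk] at h2
  exact h2

/-- **`Int_K(A, A')` is the integral closure of `Int_K(A)` in its fraction field `K(X)`.** -/
theorem integral_closure [Nontrivial B] (A : Subalgebra D B) (hA : ∀ a ∈ A, IsIntegral D a)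
    (x : RatFunc K) :
    IsIntegral (IntK D K A) x ↔ ∃ f ∈ IntKPrime D K A, algebraMap K[X] (RatFunc K) f = x := by
  constructor
  · intro hx
    have h1 : IsIntegral K[X] x := hx.tower_top
    obtain ⟨f, hf⟩ := IsIntegrallyClosed.isIntegral_iff.mp h1
    refine ⟨f, ?_, hf⟩
    apply mem_of_isIntegral A hA
    rw [← hf] at hx
    exact (isIntegral_algebraMap_iff (IsFractionRing.injective K[X] (RatFunc K))).mp hx
  · rintro ⟨f, hf, rfl⟩
    exact (isIntegral_of_mem A hf).algebraMap

end Main

end Pool.Agent.R701.IntVal
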