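import Pool.Agent.R701.CutWr

/-! The rational Frobenius group `5^2 : Q_8` and elementary abelian `5`-groups. -/

namespace Pool.Agent.R701.CutWr

universe u

section Q

/-- action of `Q_8` on `F_5^2` -/
def act : QuaternionGroup 2 → ZMod 5 × ZMod 5 → ZMod 5 × ZMod 5
  | QuaternionGroup.a i, v => (2 ^ (i : ZMod 4).val * v.1, 3 ^ (i : ZMod 4).val * v.2)
  | QuaternionGroup.xa i, v => (3 ^ (i : ZMod 4).val * v.2, -(2 ^ (i : ZMod 4).val * v.1))

lemma act_add (g : QuaternionGroup 2) (v w : ZMod 5 × ZMod 5) :
    act g (v + w) = act g v + act g w := by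
  cases g <;> (unfold act; ext <;> simp <;> ring)

set_option maxRecDepth 100000 in
lemma act_mul : ∀ (g h : QuaternionGroup 2) (v : ZMod 5 × ZMod 5),
    act (g * h) v = act g (act h v) := by
  decide +kernel

lemma act_one : ∀ (v : ZMod 5 × ZMod 5), act 1 v = v := by
  decide +kernel

set_option maxRecDepth 100000 in
lemma act_orbit : ∀ (c : ZMod 5) (v : ZMod 5 × ZMod 5), c ≠ 0 →
    ∃ h : QuaternionGroup 2, act h (c * v.1, c * v.2) = v := by
  decide +kernel

set_option maxRecDepth 100000 in
lemma act_fix : ∀ (g : QuaternionGroup 2) (v : ZMod 5 × ZMod 5), g ≠ 1 →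
    ∃ w, w - act g w = v := by
  decide +kernel

lemma q_real : ∀ (g : QuaternionGroup 2), ∃ h, h * g⁻¹ * h⁻¹ = g := by
  decide +kernel

lemma q_four : ∀ (g : QuaternionGroup 2), g ^ 4 = 1 := by
  decide +kernel

/-- the action homomorphism -/
def qact : QuaternionGroup 2 →* MulAut (Multiplicative (ZMod 5 × ZMod 5)) where
  toFun g :=
    { toFun := fun v => Multiplicative.ofAdd (act g v.toAdd)
      invFun := fun v => Multiplicative.ofAdd (act g⁻¹ v.toAdd)
      left_inv := fun v => by
        show Multiplicative.ofAdd (act g⁻¹ (act g v.toAdd)) = v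
        rw [← act_mul, inv_mul_cancel, act_one]; rfl
      right_inv := fun v => by
        show Multiplicative.ofAdd (act g (act g⁻¹ v.toAdd)) = v
        rw [← act_mul, mul_inv_cancel, act_one]; rfl
      map_mul' := fun v w => by
        show Multiplicative.ofAdd (act g (v.toAdd + w.toAdd)) =
          Multiplicative.ofAdd (act g v.toAdd + act g w.toAdd)
        rw [act_add] }
  map_one' := by
    ext v : 1
    show Multiplicative.ofAdd (act 1 v.toAdd) = v
    rw [act_one]; rfl
  map_mul' g h := by
    ext v : 1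
    show Multiplicative.ofAdd (act (g * h) v.toAdd) = Multiplicative.ofAdd (act g (act h v.toAdd))
    rw [act_mul]

/-- the group `5^2 : Q_8` -/
abbrev RG := Multiplicative (ZMod 5 × ZMod 5) ⋊[qact] QuaternionGroup 2

instance : Group.IsSolvable (QuaternionGroup 2) := by
  have : IsPGroup 2 (QuaternionGroup 2) := fun g => ⟨2, by simpa using q_four g⟩
  have : Fact (Nat.Prime 2) := ⟨Nat.prime_two⟩
  have h := IsPGroup.isNilpotent ‹IsPGroup 2 (QuaternionGroup 2)›
  infer_instance

instance : Group.IsSolvable RG := by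
  apply Group.isSolvable_of_ker_le_range
    (SemidirectProduct.inl : Multiplicative (ZMod 5 × ZMod 5) →* RG) (SemidirectProduct.rightHom)
  rw [SemidirectProduct.range_inl_eq_ker_rightHom]

instance : Finite RG := Finite.of_equiv _ (SemidirectProduct.equivProd (φ := qact)).symm

lemma five_dvd_card : 5 ∣ Nat.card RG := by
  rw [Nat.card_congr (SemidirectProduct.equivProd (φ := qact)), Nat.card_prod]
  have : Nat.card (Multiplicative (ZMod 5 × ZMod 5)) = 25 := by
    show Nat.card (ZMod 5 × ZMod 5) = 25
    rw [Nat.card_prod, Nat.card_zmod]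
  rw [this]
  exact Dvd.dvd.mul_right (by norm_num) _

lemma qzpow (g : QuaternionGroup 2) (j : ℤ) (hj : j % 2 = 1) : g ^ j = g ∨ g ^ j = g⁻¹ := by
  have h4 : g ^ (4 : ℤ) = 1 := by
    have := q_four g
    exact_mod_cast this
  have h : j % 4 = 1 ∨ j % 4 = 3 := by omega
  rcases h with h | h
  · left
    have : j = 1 + 4 * (j / 4) := by omega
    rw [this, zpow_add, zpow_mul, h4, one_zpow, zpow_one, mul_one]
  · right
    have : j = -1 + 4 * (j / 4 + 1) := by omega
    rw [this, zpow_add, zpow_mul, h4, one_zpow, mul_one, zpow_neg_one]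

theorem CD_RG : CD 6 RG := by
  intro x j hj hj6
  have hj2 : j % 2 = 1 := by
    have : j % 6 = 1 % 6 := hj6
    omega
  have hj5 : (j : ZMod 5) ≠ 0 := by
    have hc : IsCoprime j (5 : ℤ) := by
      apply hj.of_isCoprime_of_dvd_right
      exact_mod_cast five_dvd_card
    intro h
    have h5 : (5 : ℤ) ∣ j := (ZMod.intCast_zmod_eq_zero_iff_dvd j 5).mp h
    obtain ⟨u, v, huv⟩ := hc
    have : (5 : ℤ) ∣ 1 := by
      rw [← huv]
      exact dvd_add (h5.mul_left _) (dvd_mul_left _ _)
    omega
  by_cases hg : x.right = 1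
  · obtain ⟨h, hh⟩ := act_orbit (j : ZMod 5) x.left.toAdd hj5
    have hx : x = SemidirectProduct.inl x.left := SemidirectProduct.ext rfl hg
    rw [isConj_iff]
    refine ⟨SemidirectProduct.inr h, ?_⟩
    conv_rhs => rw [hx]
    rw [hx, ← map_zpow, ← map_inv, ← SemidirectProduct.inl_aut]
    congr 1
    show Multiplicative.ofAdd (act h (Multiplicative.toAdd (x.left ^ j))) = x.left
    have : Multiplicative.toAdd (x.left ^ j) = ((j : ZMod 5) * x.left.toAdd.1,
        (j : ZMod 5) * x.left.toAdd.2) := by
      rw [toAdd_zpow]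
      ext <;> simp
    rw [this, hh]
    rfl
  · obtain ⟨w, hw⟩ := act_fix x.right x.left.toAdd hg
    have h1 : IsConj (SemidirectProduct.inr x.right : RG) x := by
      rw [isConj_iff]
      refine ⟨SemidirectProduct.inl (Multiplicative.ofAdd w), ?_⟩
      rw [mul_inv_eq_iff_eq_mul]
      apply SemidirectProduct.ext
      · show Multiplicative.ofAdd w * qact 1 1 = x.left * qact x.right (Multiplicative.ofAdd w)
        rw [map_one, mul_one]
        have h2 : x.left = Multiplicative.ofAdd (w - act x.right w) := by rw [hw]; rfl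
        have h3 : qact x.right (Multiplicative.ofAdd w) = Multiplicative.ofAdd (act x.right w) := rfl
        rw [h2, h3, ← ofAdd_add]
        simp
      · show 1 * x.right = x.right * 1
        simp
    obtain ⟨c, hc⟩ := isConj_iff.mp h1
    have h2 : IsConj (x ^ j) ((SemidirectProduct.inr x.right : RG) ^ j) := by
      apply IsConj.symm
      rw [isConj_iff]
      refine ⟨c, ?_⟩
      conv_rhs => rw [← hc]
      rw [conj_zpow]
    refine h2.trans (IsConj.trans ?_ h1)
    rcases qzpow x.right j hj2 with h | h
    · rw [← map_zpow, h]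
    · rw [← map_zpow, h]
      obtain ⟨q, hq⟩ := q_real x.right
      rw [isConj_iff]
      refine ⟨SemidirectProduct.inr q, ?_⟩
      rw [← map_mul, ← map_inv, ← map_mul, hq]

end Q

section Pi

theorem CD_pi {D : ℕ} {ι : Type} [Finite ι] {H : Type u} [Group H] [Finite H] (hH : CD D H) :
    CD D (ι → H) := by
  intro x j hj hjD
  have hc : ∀ i : ι, ∃ c : H, c * (x i) ^ j * c⁻¹ = x i := by
    intro i
    have : Nonempty ι := ⟨i⟩
    apply isConj_iff.mp
    apply hH (x i) j ?_ hjD
    apply hj.of_isCoprime_of_dvd_right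
    rw [Nat.card_fun]
    have h0 : Nat.card ι ≠ 0 := Nat.card_ne_zero.mpr ⟨inferInstance, inferInstance⟩
    exact_mod_cast dvd_pow_self (Nat.card H) h0
  choose c hc using hc
  rw [isConj_iff]
  exact ⟨c, funext hc⟩

/-- every finite elementary abelian `5`-group embeds in a solvable group of class `CD 6`. -/
theorem emb_elem {N : Type u} [Group N] [Finite N] (hcomm : ∀ x y : N, x * y = y * x)
    (h5 : ∀ x : N, x ^ 5 = 1) : Emb 6 N := by
  classical
  have : Fact (Nat.Prime 5) := ⟨by norm_num⟩
  let _ : CommGroup N := { (inferInstance : Group N) with mul_comm := hcomm }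
  let A := Additive N
  let _ : Module (ZMod 5) A := AddCommGroup.zmodModule (n := 5) (fun x => h5 x)
  have : Finite A := ‹Finite N›
  have : Module.Finite (ZMod 5) A := Module.Finite.of_finite
  let b := Module.finBasis (ZMod 5) A
  let n := Module.finrank (ZMod 5) A
  refine ⟨Fin n → RG, inferInstance, inferInstance, isSolvable_pi, CD_pi CD_RG, ?_⟩
  let F : N → (Fin n → RG) := fun x i =>
    SemidirectProduct.inl (Multiplicative.ofAdd (b.repr (Additive.ofMul x) i, (0 : ZMod 5)))
  have hmul : ∀ x y, F (x * y) = F x * F y := by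
    intro x y
    funext i
    show SemidirectProduct.inl (Multiplicative.ofAdd (b.repr (Additive.ofMul (x * y)) i,
      (0 : ZMod 5))) = SemidirectProduct.inl _ * SemidirectProduct.inl _
    rw [← map_mul, ← ofAdd_add, ofMul_mul, map_add]
    congr 2
  refine ⟨MonoidHom.mk' F hmul, ?_⟩
  intro x y hxy
  have h1 : ∀ i, b.repr (Additive.ofMul x) i = b.repr (Additive.ofMul y) i := by
    intro i
    have h2 := congrFun (show F x = F y from hxy) i
    have h3 := SemidirectProduct.inl_injective h2
    exact congrArg (fun z : Multiplicative (ZMod 5 × ZMod 5) => z.toAdd.1) h3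
  have h4 : b.repr (Additive.ofMul x) = b.repr (Additive.ofMul y) := by
    ext i; exact h1 i
  exact Additive.ofMul.injective (b.repr.injective h4)

end Pi

end Pool.Agent.R701.CutWr
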