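import Mathlib

/-! If every `x ^ j` (`j` prime to `|G|`) is conjugate to `x` or `x⁻¹`, then all central units of
`ℤG` are trivial. -/

namespace Pool.Agent.R701.CutUnits

open Polynomial

universe u

section Trace

variable {F : Type*} [Field F] {E : Type*} [AddCommGroup E] [Module F E]
  [FiniteDimensional F E]

theorem exists_trace_mult {n : ℕ} (hn : 0 < n) {ζ : F} (hζ : IsPrimitiveRoot ζ n)
    (f : Module.End F E) (hf : f ^ n = 1) :
    ∃ r : F → ℕ, ∀ k : ℕ, LinearMap.trace F E (f ^ k) =
      ∑ z ∈ nthRootsFinset n (1 : F), (r z : F) * z ^ k := by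
  classical
  set s := nthRootsFinset n (1 : F) with hs
  have hinj : Set.InjOn (id : F → F) s := fun a _ b _ h => h
  have key : ∀ p : F[X], (∀ z ∈ s, p.eval z = 0) → aeval f p = 0 := by
    intro p hp
    have h1 : ∏ z ∈ s, (X - C z) ∣ p := by
      apply Finset.prod_dvd_of_coprime
      · intro a ha b hb hab
        exact isCoprime_X_sub_C_of_isUnit_sub (sub_ne_zero.mpr hab).isUnit
      · intro z hz
        exact dvd_iff_isRoot.mpr (hp z hz)
    rw [← X_pow_sub_one_eq_prod hn hζ] at h1
    obtain ⟨q, rfl⟩ := h1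
    simp [hf]
  let e : F → Module.End F E := fun z => aeval f (Lagrange.basis s id z)
  have hpow : ∀ k : ℕ, f ^ k = ∑ z ∈ s, z ^ k • e z := by
    intro k
    have h2 := key (X ^ k - ∑ z ∈ s, C (z ^ k) * Lagrange.basis s id z) (by
      intro z hz
      rw [eval_sub, eval_finsetSum, Finset.sum_eq_single z]
      · have := Lagrange.eval_basis_self hinj hz
        simp only [id] at this
        simp [this]
      · intro b hb hbz
        have := Lagrange.eval_basis_of_ne (v := (id : F → F)) hbz hz
        simp only [id] at this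
        simp [this]
      · exact fun h => absurd hz h)
    rw [map_sub, sub_eq_zero] at h2
    simp only [map_pow, aeval_X, map_sum, map_mul, aeval_C] at h2
    rw [h2]
    apply Finset.sum_congr rfl
    intro z _
    rw [← map_pow, Algebra.smul_def]
  have hid : ∀ z ∈ s, IsIdempotentElem (e z) := by
    intro z hz
    have h2 := key (Lagrange.basis s id z * Lagrange.basis s id z - Lagrange.basis s id z) (by
      intro y hy
      by_cases hyz : z = y
      · subst hyz
        have := Lagrange.eval_basis_self hinj hz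
        simp only [id] at this
        simp [this]
      · have := Lagrange.eval_basis_of_ne (v := (id : F → F)) hyz hy
        simp only [id] at this
        simp [this])
    rw [map_sub, map_mul, sub_eq_zero] at h2
    exact h2
  refine ⟨fun z => Module.finrank F (LinearMap.range (e z)), fun k => ?_⟩
  rw [hpow, map_sum]
  apply Finset.sum_congr rfl
  intro z hz
  rw [map_smul, (LinearMap.IsIdempotentElem.isProj_range _ (hid z hz)).trace, smul_eq_mul,
    mul_comm]

end Trace

section Eig

variable {G : Type u} [Group G] [Fintype G] [DecidableEq G]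

/-- the matrix of convolution with `v` -/
def mat {R : Type*} (v : G → R) : Matrix G G R := Matrix.of fun x y => v (x * y⁻¹)

variable {F : Type} [Field F] [CharZero F] [IsAlgClosed F] [Algebra ℚ F] [IsGalois ℚ F]

/-- left translation -/
def Lt (F : Type) [Field F] (g : G) : (G → F) →ₗ[F] (G → F) where
  toFun f x := f (g⁻¹ * x)
  map_add' _ _ := rfl
  map_smul' _ _ := rfl

theorem eig_rat (v : G → ℤ) (hcl : ∀ g h, v (h * g * h⁻¹) = v g)
    (hpow : ∀ g, ∀ m : ℕ, (Nat.card G).Coprime m → v (g ^ m) = v g) (lam : F)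
    (hlam : Module.End.HasEigenvalue
      (Matrix.toLin' (mat (fun g => (v g : F)) : Matrix G G F)) lam) :
    lam ∈ Set.range (algebraMap ℚ F) := by
  classical
  set V := Matrix.toLin' (mat (fun g => (v g : F)) : Matrix G G F) with hV
  have hVapp : ∀ (f : G → F) x, V f x = ∑ g, (v g : F) * f (g⁻¹ * x) := by
    intro f x
    rw [hV, Matrix.toLin'_apply]
    show ∑ y, (v (x * y⁻¹) : F) * f y = _
    apply Finset.sum_bij (fun y _ => x * y⁻¹)
    · intro a _; exact Finset.mem_univ _
    · intro a _ b _ h; simpa using h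
    · intro b _; exact ⟨b⁻¹ * x, Finset.mem_univ _, by group⟩
    · intro a _; congr 2; group
  have hcomm : ∀ g (f : G → F), V (Lt F g f) = Lt F g (V f) := by
    intro g f
    funext x
    show V (Lt F g f) x = V f (g⁻¹ * x)
    rw [hVapp, hVapp]
    show ∑ h, (v h : F) * f (g⁻¹ * (h⁻¹ * x)) = _
    apply Finset.sum_bij (fun h _ => g⁻¹ * h * g)
    · intro a _; exact Finset.mem_univ _
    · intro a _ b _ h; simpa using h
    · intro b _; exact ⟨g * b * g⁻¹, Finset.mem_univ _, by group⟩
    · intro a _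
      have := hcl a g⁻¹
      rw [inv_inv] at this
      rw [this]
      congr 2
      group
  set E := Module.End.eigenspace V lam with hE
  have hEmem : ∀ g, ∀ f ∈ E, Lt F g f ∈ E := by
    intro g f hf
    rw [hE, Module.End.mem_eigenspace_iff] at *
    rw [hcomm, hf, map_smul]
  let ρ : G →* Module.End F E :=
    { toFun := fun g => (Lt F g).restrict (hEmem g)
      map_one' := by
        ext f x
        show (f : G → F) (1⁻¹ * x) = f.1 x
        simp
      map_mul' := fun g h => by
        ext f x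
        show (f : G → F) ((g * h)⁻¹ * x) = (f : G → F) (h⁻¹ * (g⁻¹ * x))
        simp [mul_assoc] }
  have hsum : ∑ g, (v g : F) • ρ g = lam • (1 : Module.End F E) := by
    ext f x
    have hf : V f.1 = lam • f.1 := Module.End.mem_eigenspace_iff.mp f.2
    have h1 := congrFun hf x
    rw [hVapp] at h1
    have h2 : ((∑ g, (v g : F) • ρ g) f : G → F) x = ∑ g, (v g : F) * (f : G → F) (g⁻¹ * x) := by
      rw [LinearMap.sum_apply]
      rw [Submodule.coe_sum, Finset.sum_apply]
      rfl
    rw [h2, h1]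
    rfl
  set d := Module.finrank F E with hd
  have hd0 : (d : F) ≠ 0 := by
    have : Nontrivial E := by
      rw [Submodule.nontrivial_iff_ne_bot]
      exact hlam
    exact_mod_cast (Module.finrank_pos (R := F) (M := E)).ne'
  have htr : ∑ g, (v g : F) * LinearMap.trace F E (ρ g) = lam * d := by
    have := congrArg (LinearMap.trace F E) hsum
    rw [map_sum, map_smul, LinearMap.trace_one] at this
    rw [smul_eq_mul] at this
    rw [← this]
    apply Finset.sum_congr rfl
    intro g _
    rw [map_smul, smul_eq_mul]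
  rw [InfiniteGalois.mem_range_algebraMap_iff_fixed]
  intro σ
  set n := Nat.card G with hn
  have hnpos : 0 < n := Nat.card_pos
  have : NeZero (n : F) := ⟨by exact_mod_cast hnpos.ne'⟩
  obtain ⟨ζ, hζ⟩ := HasEnoughRootsOfUnity.exists_primitiveRoot F n
  have hσζ : IsPrimitiveRoot (σ ζ) n := hζ.map_of_injective σ.injective
  obtain ⟨m, _, hm⟩ := hζ.eq_pow_of_pow_eq_one hσζ.pow_eq_one
  have hcop : n.Coprime m := by
    rw [← hm] at hσζ
    exact ((hζ.pow_iff_coprime hnpos m).mp hσζ).symm
  have hroot : ∀ z ∈ nthRootsFinset n (1 : F), σ z = z ^ m := by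
    intro z hz
    rw [mem_nthRootsFinset hnpos] at hz
    obtain ⟨i, _, hi⟩ := hζ.eq_pow_of_pow_eq_one hz
    rw [← hi, map_pow, ← hm, ← pow_mul, ← pow_mul, mul_comm]
  have htrσ : ∀ g, σ (LinearMap.trace F E (ρ g)) = LinearMap.trace F E (ρ (g ^ m)) := by
    intro g
    have hg : (ρ g) ^ n = 1 := by
      rw [← map_pow, hn, pow_card_eq_one', map_one]
    obtain ⟨r, hr⟩ := exists_trace_mult hnpos hζ (ρ g) hg
    have h1 := hr 1
    rw [pow_one] at h1
    rw [h1, map_pow, hr m, map_sum]
    apply Finset.sum_congr rfl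
    intro z hz
    rw [map_mul, map_natCast, pow_one, hroot z hz]
  have hfin : σ lam * d = lam * d := by
    have h1 := congrArg σ htr
    rw [map_sum, map_mul, map_natCast] at h1
    rw [← h1, ← htr]
    rw [← Equiv.sum_comp (powCoprime hcop) (fun g => (v g : F) * LinearMap.trace F E (ρ g))]
    apply Finset.sum_congr rfl
    intro g _
    rw [map_mul, map_intCast, htrσ]
    show _ = ((v (g ^ m) : ℤ) : F) * _
    rw [hpow g m hcop]
    rfl
  exact mul_right_cancel₀ hd0 hfin

end Eig

section Mat

variable {G : Type u} [Fintype G] [DecidableEq G]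

lemma int_of_inv {q : ℚ} (h1 : IsIntegral ℤ q) (h2 : IsIntegral ℤ q⁻¹) (h0 : q ≠ 0) :
    q = 1 ∨ q = -1 := by
  obtain ⟨a, ha⟩ := (IsIntegrallyClosed.isIntegral_iff (R := ℤ) (K := ℚ)).mp h1
  obtain ⟨b, hb⟩ := (IsIntegrallyClosed.isIntegral_iff (R := ℤ) (K := ℚ)).mp h2
  have hab : a * b = 1 := by
    have : ((a * b : ℤ) : ℚ) = 1 := by
      push_cast
      have ha' : (a : ℚ) = q := ha
      have hb' : (b : ℚ) = q⁻¹ := hb
      rw [ha', hb', mul_inv_cancel₀ h0]
    exact_mod_cast this
  have ha' : (a : ℚ) = q := ha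
  rcases Int.eq_one_or_neg_one_of_mul_eq_one hab with h | h
  · left; rw [← ha', h]; simp
  · right; rw [← ha', h]; simp

theorem eig_integral {F : Type} [Field F] (W : Matrix G G ℤ) (lam : F)
    (h : Module.End.HasEigenvalue (Matrix.toLin' (W.map (Int.cast : ℤ → F))) lam) :
    IsIntegral ℤ lam := by
  refine ⟨W.charpoly, Matrix.charpoly_monic W, ?_⟩
  have h1 : (Matrix.toLin' (W.map (Int.cast : ℤ → F))).charpoly.IsRoot lam :=
    (Module.End.hasEigenvalue_iff_isRoot_charpoly _ _).mp h
  rw [Matrix.charpoly_toLin'] at h1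
  have h2 : (W.map (Int.cast : ℤ → F)).charpoly = W.charpoly.map (algebraMap ℤ F) :=
    Matrix.charpoly_map W (algebraMap ℤ F)
  rw [h2] at h1
  rw [← Polynomial.eval_map]
  exact h1

theorem eig_pm_one [Group G] {F : Type} [Field F] [CharZero F] [IsAlgClosed F] [Algebra ℚ F] [IsGalois ℚ F]
    (v : G → ℤ) (hcl : ∀ g h, v (h * g * h⁻¹) = v g)
    (hpow : ∀ g, ∀ m : ℕ, (Nat.card G).Coprime m → v (g ^ m) = v g)
    (W : Matrix G G ℤ) (hW : W * mat v = 1) (lam : F)
    (hlam : Module.End.HasEigenvalue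
      (Matrix.toLin' ((mat v).map (Int.cast : ℤ → F))) lam) : lam = 1 ∨ lam = -1 := by
  obtain ⟨q, hq⟩ := eig_rat v hcl hpow lam hlam
  obtain ⟨f, hf⟩ := hlam.exists_hasEigenvector
  have hf1 := hf.apply_eq_smul
  have hWm : W.map (Int.cast : ℤ → F) * (mat v).map (Int.cast : ℤ → F) = 1 := by
    have := congrArg (fun M : Matrix G G ℤ => M.map (Int.castRingHom F)) hW
    simp only [Matrix.map_mul] at this
    rw [Matrix.map_one _ (map_zero _) (map_one _)] at this
    exact this
  have hf2 : Matrix.toLin' (W.map (Int.cast : ℤ → F)) (lam • f) = f := by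
    rw [← hf1, ← Matrix.toLin'_mul_apply, hWm, Matrix.toLin'_one]; rfl
  have hlam0 : lam ≠ 0 := by
    rintro rfl
    rw [zero_smul, map_zero] at hf2
    exact hf.2 hf2.symm
  have hinv : Module.End.HasEigenvalue (Matrix.toLin' (W.map (Int.cast : ℤ → F))) lam⁻¹ := by
    apply Module.End.hasEigenvalue_of_hasEigenvector (x := f)
    refine ⟨?_, hf.2⟩
    rw [Module.End.mem_eigenspace_iff]
    rw [map_smul] at hf2
    conv_rhs => rw [← hf2]
    rw [smul_smul, inv_mul_cancel₀ hlam0, one_smul]
  have i1 := eig_integral _ _ hlam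
  have i2 := eig_integral _ _ hinv
  rw [← hq] at i1 i2
  rw [← map_inv₀] at i2
  have j1 : IsIntegral ℤ q := (isIntegral_algebraMap_iff (algebraMap ℚ F).injective).mp i1
  have j2 : IsIntegral ℤ q⁻¹ := (isIntegral_algebraMap_iff (algebraMap ℚ F).injective).mp i2
  have hq0 : q ≠ 0 := by
    rintro rfl
    rw [map_zero] at hq
    exact hlam0 hq.symm
  rcases int_of_inv j1 j2 hq0 with h | h
  · left; rw [← hq, h, map_one]
  · right; rw [← hq, h, map_neg, map_one]

theorem exF : ∃ (F : Type) (_ : Field F) (_ : CharZero F) (_ : IsAlgClosed F) (_ : Algebra ℚ F),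
    IsGalois ℚ F :=
  ⟨AlgebraicClosure ℚ, inferInstance, inferInstance, inferInstance, AlgebraicClosure.instAlgebra ℚ,
    @IsAlgClosure.isGalois ℚ (AlgebraicClosure ℚ) _ _ (AlgebraicClosure.instAlgebra ℚ)
      inferInstance inferInstance⟩

theorem sq_nilp [Group G] (v : G → ℤ) (hcl : ∀ g h, v (h * g * h⁻¹) = v g)
    (hpow : ∀ g, ∀ m : ℕ, (Nat.card G).Coprime m → v (g ^ m) = v g)
    (W : Matrix G G ℤ) (hW : W * mat v = 1) : ∃ N : ℕ, ((mat v) ^ 2 - 1) ^ N = 0 := by
  classical
  obtain ⟨F, _, _, _, _, _⟩ := exF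
  set VF : Matrix G G F := (mat v).map (Int.cast : ℤ → F) with hVF
  set χ := VF.charpoly with hχ
  have hspl : χ.Splits := IsAlgClosed.splits χ
  have hprod : χ = (χ.roots.map (fun a => X - C a)).prod :=
    hspl.eq_prod_roots_of_monic (Matrix.charpoly_monic VF)
  have hroots : ∀ a ∈ χ.roots, (X - C a) * (X + C a) = (X ^ 2 - 1 : F[X]) := by
    intro a ha
    have h1 : χ.IsRoot a := (mem_roots'.mp ha).2
    have h2 : Module.End.HasEigenvalue (Matrix.toLin' VF) a := by
      rw [Module.End.hasEigenvalue_iff_isRoot_charpoly, Matrix.charpoly_toLin']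
      exact h1
    rcases eig_pm_one v hcl hpow W hW a h2 with h | h
    · rw [h, map_one]; ring
    · rw [h, map_neg, map_one]; ring
  have hdvd : χ ∣ (X ^ 2 - 1) ^ (Multiset.card χ.roots) := by
    refine ⟨(χ.roots.map (fun a => X + C a)).prod, ?_⟩
    have h8 : χ * (χ.roots.map (fun a => X + C a)).prod =
        (χ.roots.map (fun a => X - C a)).prod * (χ.roots.map (fun a => X + C a)).prod :=
      congrArg (fun z => z * (χ.roots.map (fun a => X + C a)).prod) hprod
    rw [h8, ← Multiset.prod_map_mul, Multiset.map_congr rfl hroots, Multiset.map_const',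
      Multiset.prod_replicate]
  refine ⟨Multiset.card χ.roots, ?_⟩
  have h3 : (VF ^ 2 - 1) ^ (Multiset.card χ.roots) = 0 := by
    obtain ⟨q, hq⟩ := hdvd
    have h4 := congrArg (aeval VF) hq
    rw [map_mul, hχ, Matrix.aeval_self_charpoly, zero_mul] at h4
    simpa using h4
  set U : Matrix G G ℤ := ((mat v) ^ 2 - 1) ^ (Multiset.card χ.roots) with hU
  have h5 : U.map (Int.castRingHom F) =
      (VF ^ 2 - 1) ^ (Multiset.card χ.roots) := by
    rw [hU]
    have : ∀ M : Matrix G G ℤ, M.map (Int.castRingHom F) = (Int.castRingHom F).mapMatrix M :=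
      fun M => rfl
    rw [this, map_pow, map_sub, map_pow, map_one]
    rfl
  rw [h3] at h5
  ext i j
  have h6 := congrFun (congrFun h5 i) j
  have h7 : U i j = 0 := by
    have : ((U i j : ℤ) : F) = 0 := h6
    exact_mod_cast this
  exact h7

lemma symm_nilp (M : Matrix G G ℤ) (hM : M.transpose = M) :
    ∀ N : ℕ, M ^ N = 0 → M = 0 := by
  intro N
  induction N using Nat.strong_induction_on generalizing M with
  | _ N ih =>
  intro h
  have hsq : ∀ K : Matrix G G ℤ, K.transpose = K → K ^ 2 = 0 → K = 0 := by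
    intro K hK hK2
    ext i j
    have h1 := congrFun (congrFun hK2 i) i
    rw [pow_two, Matrix.mul_apply] at h1
    have h2 : ∑ j, K i j * K i j = 0 := by
      rw [← h1.trans (by rfl : (0 : Matrix G G ℤ) i i = 0)]
      apply Finset.sum_congr rfl
      intro j _
      congr 1
      exact (congrFun (congrFun hK j) i)
    have h3 := (Finset.sum_eq_zero_iff_of_nonneg (fun j _ => mul_self_nonneg (K i j))).mp h2 j
      (Finset.mem_univ _)
    exact mul_self_eq_zero.mp h3
  rcases Nat.lt_or_ge N 2 with h2 | h2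
  · interval_cases N
    · rw [pow_zero] at h
      calc M = M * 1 := by rw [mul_one]
        _ = 0 := by rw [h, mul_zero]
    · rwa [pow_one] at h
  · have hT : (M ^ (N - 1)).transpose = M ^ (N - 1) := by
      rw [Matrix.transpose_pow, hM]
    have hz : M ^ (N - 1) = 0 := by
      apply hsq _ hT
      rw [← pow_mul]
      obtain ⟨k, hk⟩ : ∃ k, (N - 1) * 2 = N + k := ⟨(N - 1) * 2 - N, by omega⟩
      rw [hk, pow_add, h, zero_mul]
    exact ih (N - 1) (by omega) M hM hz

end Mat

section Main

open MonoidAlgebra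

variable {G : Type u} [Group G]

lemma mat_mul [Fintype G] [DecidableEq G] (x y : MonoidAlgebra ℤ G) :
    mat (⇑x.coeff) * mat (⇑y.coeff) = mat (⇑(x * y).coeff) := by
  ext g h
  rw [Matrix.mul_apply]
  show ∑ z, x.coeff (g * z⁻¹) * y.coeff (z * h⁻¹) = (x * y).coeff (g * h⁻¹)
  rw [coeff_mul_apply_right, Finsupp.sum_fintype _ _ (by simp)]
  apply Finset.sum_bij (fun z _ => z * h⁻¹)
  · intro a _; exact Finset.mem_univ _
  · intro a _ b _ hab; simpa using hab
  · intro b _; exact ⟨b * h, Finset.mem_univ _, by group⟩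
  · intro a _; congr 2; group

lemma mat_one [Fintype G] [DecidableEq G] :
    mat (⇑(1 : MonoidAlgebra ℤ G).coeff) = (1 : Matrix G G ℤ) := by
  ext g h
  show (1 : MonoidAlgebra ℤ G).coeff (g * h⁻¹) = _
  have h1 : (1 = g * h⁻¹) ↔ g = h := by rw [eq_comm, mul_inv_eq_one]
  rw [one_def, coeff_single, Finsupp.single_apply, Matrix.one_apply]
  simp [h1]

theorem central_units_trivial [Finite G]
    (hcut : ∀ x : G, ∀ m : ℕ, (Nat.card G).Coprime m → IsConj (x ^ m) x ∨ IsConj (x ^ m) x⁻¹)
    (u : (MonoidAlgebra ℤ G)ˣ)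
    (hu : ∀ g : G, single g 1 * (u : MonoidAlgebra ℤ G) = (u : MonoidAlgebra ℤ G) * single g 1) :
    ∃ g ∈ Subgroup.center G, (u : MonoidAlgebra ℤ G) = single g 1 ∨
      (u : MonoidAlgebra ℤ G) = - single g 1 := by
  classical
  have := Fintype.ofFinite G
  set a : G → ℤ := ⇑(u : MonoidAlgebra ℤ G).coeff with ha
  have hacl : ∀ g h, a (h * g * h⁻¹) = a g := by
    intro g h
    have h1 := congrArg (fun z : MonoidAlgebra ℤ G => z.coeff (h * g)) (hu h)
    simp only [coeff_single_mul_apply, coeff_mul_single_apply, one_mul, mul_one] at h1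
    rw [ha, ← h1]
    congr 1
    group
  set P : Matrix G G ℤ := mat a with hP
  set Q : Matrix G G ℤ := mat (⇑((u⁻¹ : (MonoidAlgebra ℤ G)ˣ) : MonoidAlgebra ℤ G).coeff) with hQ
  have hPQ : P * Q = 1 := by
    rw [hP, hQ, mat_mul, Units.mul_inv, mat_one]
  have hQP : Q * P = 1 := by
    rw [hP, hQ, mat_mul, Units.inv_mul, mat_one]
  let v : G → ℤ := fun g => ∑ t, a (g * t) * a t
  have hV : P * P.transpose = mat v := by
    ext x y
    rw [Matrix.mul_apply]
    show ∑ z, a (x * z⁻¹) * a (y * z⁻¹) = ∑ t, a (x * y⁻¹ * t) * a t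
    apply Finset.sum_bij (fun z _ => y * z⁻¹)
    · intro a _; exact Finset.mem_univ _
    · intro a _ b _ hab; simpa using hab
    · intro b _; exact ⟨b⁻¹ * y, Finset.mem_univ _, by group⟩
    · intro a _; congr 2; group
  have hvinv : ∀ g, v g⁻¹ = v g := by
    intro g
    show ∑ t, a (g⁻¹ * t) * a t = ∑ t, a (g * t) * a t
    apply Finset.sum_bij (fun z _ => g⁻¹ * z)
    · intro a _; exact Finset.mem_univ _
    · intro a _ b _ hab; simpa using hab
    · intro b _; exact ⟨g * b, Finset.mem_univ _, by group⟩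
    · intro b _
      rw [mul_inv_cancel_left, mul_comm]
  have hvcl : ∀ g h, v (h * g * h⁻¹) = v g := by
    intro g h
    show ∑ t, a (h * g * h⁻¹ * t) * a t = ∑ t, a (g * t) * a t
    apply Finset.sum_bij (fun z _ => h⁻¹ * z * h)
    · intro a _; exact Finset.mem_univ _
    · intro a _ b _ hab; simpa using hab
    · intro b _; exact ⟨h * b * h⁻¹, Finset.mem_univ _, by group⟩
    · intro b _
      have e1 : a (g * (h⁻¹ * b * h)) = a (h * g * h⁻¹ * b) := by
        rw [← hacl (g * (h⁻¹ * b * h)) h]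
        congr 1
        group
      have e2 : a (h⁻¹ * b * h) = a b := by
        have := hacl b h⁻¹
        rwa [inv_inv] at this
      rw [e1, e2]
  have hvpow : ∀ g, ∀ m : ℕ, (Nat.card G).Coprime m → v (g ^ m) = v g := by
    intro g m hm
    rcases hcut g m hm with h | h
    · obtain ⟨c, hc⟩ := isConj_iff.mp h
      have h1 := hvcl (g ^ m) c
      rw [hc] at h1
      exact h1.symm
    · obtain ⟨c, hc⟩ := isConj_iff.mp h
      have h1 := hvcl (g ^ m) c
      rw [hc, hvinv] at h1
      exact h1.symm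
  have hWV : (Q.transpose * Q) * mat v = 1 := by
    rw [← hV]
    calc Q.transpose * Q * (P * P.transpose) = Q.transpose * (Q * P) * P.transpose := by
          simp only [Matrix.mul_assoc]
      _ = 1 := by
          rw [hQP, Matrix.mul_one, ← Matrix.transpose_mul, hPQ, Matrix.transpose_one]
  obtain ⟨N, hN⟩ := sq_nilp v hvcl hvpow _ hWV
  have hVsym : (mat v : Matrix G G ℤ).transpose = mat v := by
    rw [← hV, Matrix.transpose_mul, Matrix.transpose_transpose]
  have hV2 : (mat v : Matrix G G ℤ) ^ 2 - 1 = 0 := by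
    apply symm_nilp _ _ N hN
    rw [Matrix.transpose_sub, Matrix.transpose_pow, hVsym, Matrix.transpose_one]
  have hV2' : (mat v : Matrix G G ℤ) * mat v = 1 := by
    rw [← pow_two]; exact sub_eq_zero.mp hV2
  have h11 : ∑ j, (mat v : Matrix G G ℤ) 1 j * (mat v : Matrix G G ℤ) 1 j = 1 := by
    have h1 := congrFun (congrFun hV2' 1) 1
    rw [Matrix.mul_apply, Matrix.one_apply_eq] at h1
    rw [← h1]
    apply Finset.sum_congr rfl
    intro j _
    congr 1
    exact congrFun (congrFun hVsym j) 1
  have hV11 : (mat v : Matrix G G ℤ) 1 1 = ∑ j, P 1 j * P 1 j := by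
    rw [← hV, Matrix.mul_apply]
    rfl
  have hle : (mat v : Matrix G G ℤ) 1 1 * (mat v : Matrix G G ℤ) 1 1 ≤ 1 := by
    rw [← h11]
    exact Finset.single_le_sum (f := fun j => (mat v : Matrix G G ℤ) 1 j *
      (mat v : Matrix G G ℤ) 1 j) (fun j _ => mul_self_nonneg _) (Finset.mem_univ 1)
  have hS : ∑ j, P 1 j * P 1 j ≤ 1 := by
    rw [← hV11]
    nlinarith
  obtain ⟨j0, hj0⟩ : ∃ j, P 1 j ≠ 0 := by
    by_contra hcon
    push Not at hcon
    have h1 := congrFun (congrFun hPQ 1) 1
    rw [Matrix.mul_apply, Matrix.one_apply_eq] at h1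
    rw [Finset.sum_eq_zero (fun j _ => by rw [hcon j, zero_mul])] at h1
    exact zero_ne_one h1
  have hothers : ∀ j, j ≠ j0 → P 1 j = 0 := by
    intro j hj
    by_contra hne
    have h1 : P 1 j0 * P 1 j0 + P 1 j * P 1 j ≤ ∑ j, P 1 j * P 1 j := by
      rw [← Finset.sum_pair (f := fun j => P 1 j * P 1 j) hj.symm]
      exact Finset.sum_le_sum_of_subset_of_nonneg (Finset.subset_univ _)
        (fun j _ _ => mul_self_nonneg _)
    have h2 : 0 < P 1 j0 * P 1 j0 := mul_self_pos.mpr hj0
    have h3 : 0 < P 1 j * P 1 j := mul_self_pos.mpr hne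
    omega
  have hval : P 1 j0 = 1 ∨ P 1 j0 = -1 := by
    have h1 : P 1 j0 * P 1 j0 ≤ 1 :=
      (Finset.single_le_sum (f := fun j => P 1 j * P 1 j) (fun j _ => mul_self_nonneg _)
        (Finset.mem_univ j0)).trans hS
    have h2 : 0 < P 1 j0 * P 1 j0 := mul_self_pos.mpr hj0
    have h3 : P 1 j0 * P 1 j0 = 1 := by omega
    exact mul_self_eq_one_iff.mp h3
  have hPa : ∀ j, P 1 j = a j⁻¹ := by
    intro j
    show a (1 * j⁻¹) = a j⁻¹
    rw [one_mul]
  have hcoef : ∀ g, a g = if j0⁻¹ = g then P 1 j0 else 0 := by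
    intro g
    split_ifs with h
    · rw [hPa, h]
    · have : P 1 g⁻¹ = 0 := hothers _ (fun h' => h (by rw [← h', inv_inv]))
      rw [hPa, inv_inv] at this
      exact this
  refine ⟨j0⁻¹, ?_, ?_⟩
  · rw [Subgroup.mem_center_iff]
    intro h
    have h1 := hacl j0⁻¹ h
    rw [hcoef, hcoef j0⁻¹, if_pos rfl] at h1
    split_ifs at h1 with h2
    · conv_rhs => rw [h2]
      group
    · exact absurd h1.symm hj0
  · rcases hval with h | h
    · left
      apply MonoidAlgebra.coeff_injective
      apply Finsupp.ext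
      intro g
      rw [coeff_single, Finsupp.single_apply]
      have := hcoef g
      rw [h] at this
      exact this
    · right
      apply MonoidAlgebra.coeff_injective
      apply Finsupp.ext
      intro g
      have := hcoef g
      rw [h] at this
      rw [show (u : MonoidAlgebra ℤ G).coeff g = _ from this, MonoidAlgebra.coeff_neg, Finsupp.neg_apply,
        coeff_single, Finsupp.single_apply]
      split_ifs <;> simp

end Main

end Pool.Agent.R701.CutUnits
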