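import Mathlib

/-! Wreath products with affine groups and the class `CD D`. -/

namespace Pool.Agent.R701.CutWr

universe u

/-- Every `x` is conjugate to `x ^ j` for all `j` prime to `|G|` with `j ≡ 1 (mod D)`. -/
def CD (D : ℕ) (G : Type u) [Group G] : Prop :=
  ∀ x : G, ∀ j : ℤ, IsCoprime j (Nat.card G : ℤ) → j ≡ 1 [ZMOD (D : ℤ)] → IsConj (x ^ j) x

section Wreath

/-- the permutation action of `T` on `Ω → H` -/
def wact (Ω : Type) (H : Type u) (T : Type) [Group H] [Group T] [MulAction T Ω] :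
    T →* MulAut (Ω → H) where
  toFun t :=
    { toFun := fun f ω => f (t⁻¹ • ω)
      invFun := fun f ω => f (t • ω)
      left_inv := fun f => by funext ω; simp
      right_inv := fun f => by funext ω; simp
      map_mul' := fun f g => rfl }
  map_one' := by ext f ω; simp
  map_mul' := fun s t => by ext f ω; simp [mul_smul]

/-- the permutational wreath product -/
abbrev Wr (Ω : Type) (H : Type u) (T : Type) [Group H] [Group T] [MulAction T Ω] :=
  (Ω → H) ⋊[wact Ω H T] T

variable {Ω : Type} {H : Type u} {T : Type} [Group H] [Group T] [MulAction T Ω]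

lemma wmul_left (x y : Wr Ω H T) (ω : Ω) :
    (x * y).left ω = x.left ω * y.left (x.right⁻¹ • ω) := rfl

lemma wzpow_right (x : Wr Ω H T) (n : ℤ) : (x ^ n).right = x.right ^ n :=
  map_zpow (SemidirectProduct.rightHom : Wr Ω H T →* T) x n

/-- elements whose top part fixes `ω` -/
def fixS (Ω : Type) (H : Type u) (T : Type) [Group H] [Group T] [MulAction T Ω] (ω : Ω) :
    Subgroup (Wr Ω H T) where
  carrier := {x | x.right • ω = ω}
  mul_mem' := fun {x y} hx hy => by
    simp only [Set.mem_ofPred_eq, SemidirectProduct.mul_right, mul_smul] at *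
    rw [hy, hx]
  one_mem' := by simp
  inv_mem' := fun {x} hx => by
    simp only [Set.mem_ofPred_eq, SemidirectProduct.inv_right] at *
    rw [inv_smul_eq_iff, hx]

/-- the component homomorphism at a fixed point -/
def compHom (Ω : Type) (H : Type u) (T : Type) [Group H] [Group T] [MulAction T Ω] (ω : Ω) :
    fixS Ω H T ω →* H where
  toFun x := x.1.left ω
  map_one' := rfl
  map_mul' := fun x y => by
    have hx : x.1.right⁻¹ • ω = ω := by
      rw [inv_smul_eq_iff]; exact x.2.symm
    show (x.1 * y.1).left ω = _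
    rw [wmul_left, hx]

lemma wzpow_left (x : Wr Ω H T) (ω : Ω) (h : x.right • ω = ω) (n : ℤ) :
    (x ^ n).left ω = (x.left ω) ^ n := by
  have := map_zpow (compHom Ω H T ω) ⟨x, h⟩ n
  exact this

/-- Conjugacy criterion in the wreath product. -/
theorem isConj_wr (x y : Wr Ω H T) (hr : y.right = x.right)
    (h : ∀ ω, ∃ b : H, ∀ k : ℤ, x.right ^ k • ω = ω →
      (y ^ k).left ω = b * (x ^ k).left ω * b⁻¹) : IsConj x y := by
  classical
  set t := x.right with ht
  choose b hb using h
  let S := MulAction.orbitRel (Subgroup.zpowers t) Ω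
  let r : Ω → Ω := fun ω => (Quotient.mk S ω).out
  have hr1 : ∀ ω, ∃ n : ℤ, t ^ n • r ω = ω := by
    intro ω
    have h1 : S (r ω) ω := Quotient.exact (Quotient.out_eq (Quotient.mk S ω))
    have h2 : S ω (r ω) := S.symm h1
    obtain ⟨⟨g, n, hn⟩, hg⟩ := h2
    refine ⟨n, ?_⟩
    simp only at hn
    rw [hn]; exact hg
  choose i hi using hr1
  have hr2 : ∀ ω, r (t⁻¹ • ω) = r ω := by
    intro ω
    have : Quotient.mk S (t⁻¹ • ω) = Quotient.mk S ω := by
      apply Quotient.sound
      refine ⟨⟨t⁻¹, ⟨-1, by simp⟩⟩, rfl⟩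
    simp only [r, this]
  -- well-definedness
  have key : ∀ (ω : Ω) (n m : ℤ), t ^ n • ω = t ^ m • ω →
      (y ^ n).left (t ^ n • ω) * b ω * ((x ^ n).left (t ^ n • ω))⁻¹ =
      (y ^ m).left (t ^ m • ω) * b ω * ((x ^ m).left (t ^ m • ω))⁻¹ := by
    intro ω n m hnm
    have hk : t ^ (m - n) • ω = ω := by
      have : t ^ (m - n) • ω = t ^ (-n) • (t ^ m • ω) := by
        rw [← mul_smul, ← zpow_add]; congr 2; ring
      rw [this, ← hnm, ← mul_smul, ← zpow_add]; simp
    have hm : m = n + (m - n) := by ring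
    have e : ∀ z : Wr Ω H T, z.right = t →
        (z ^ m).left (t ^ m • ω) = (z ^ n).left (t ^ n • ω) * (z ^ (m - n)).left ω := by
      intro z hz
      conv_lhs => rw [hm, zpow_add]
      rw [wmul_left, wzpow_right, hz]
      have e1 : t ^ (n + (m - n)) • ω = t ^ n • ω := by rw [zpow_add, mul_smul, hk]
      rw [e1]
      congr 2
      rw [← mul_smul, inv_mul_cancel, one_smul]
    rw [e x rfl, e y hr, hb ω (m - n) hk]
    group
  let f : Ω → H := fun ω => (y ^ (i ω)).left ω * b (r ω) * ((x ^ (i ω)).left ω)⁻¹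
  have hf : ∀ ω, f ω * x.left ω = y.left ω * f (t⁻¹ • ω) := by
    intro ω
    set ω0 := r ω with hω0
    set n := i ω with hn
    set m := i (t⁻¹ • ω) with hm
    have h1 : t ^ n • ω0 = ω := hi ω
    have h2 : t ^ m • ω0 = t⁻¹ • ω := by
      have := hi (t⁻¹ • ω)
      rw [hr2] at this; exact this
    have h3 : t ^ (1 + m) • ω0 = ω := by
      rw [zpow_add, mul_smul, h2, zpow_one, smul_inv_smul]
    have hk := key ω0 n (1 + m) (by rw [h1, h3])
    rw [h1, h3] at hk
    have e : ∀ z : Wr Ω H T, z.right = t →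
        (z ^ (1 + m)).left ω = z.left ω * (z ^ m).left (t⁻¹ • ω) := by
      intro z hz
      rw [zpow_add, zpow_one, wmul_left, hz]
    rw [e x rfl, e y hr] at hk
    show (y ^ n).left ω * b ω0 * ((x ^ n).left ω)⁻¹ * x.left ω =
      y.left ω * ((y ^ m).left (t⁻¹ • ω) * b (r (t⁻¹ • ω)) * ((x ^ m).left (t⁻¹ • ω))⁻¹)
    rw [hk, hr2, ← hω0]
    group
  rw [isConj_iff]
  refine ⟨SemidirectProduct.inl f, ?_⟩
  rw [mul_inv_eq_iff_eq_mul]
  apply SemidirectProduct.ext
  · funext ω
    rw [wmul_left, wmul_left]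
    simp only [SemidirectProduct.left_inl, SemidirectProduct.right_inl, inv_one, one_smul]
    rw [hf ω, hr]
  · show 1 * x.right = y.right * 1
    rw [one_mul, mul_one, hr]

end Wreath

section Aff

/-- the affine group of `ZMod p` -/
@[ext] structure Aff (p : ℕ) where
  a : (ZMod p)ˣ
  b : ZMod p

variable {p : ℕ}

instance : Mul (Aff p) := ⟨fun s t => ⟨s.a * t.a, s.a * t.b + s.b⟩⟩
instance : One (Aff p) := ⟨⟨1, 0⟩⟩
instance : Inv (Aff p) := ⟨fun s => ⟨s.a⁻¹, -(s.a⁻¹ : (ZMod p)ˣ) * s.b⟩⟩

@[simp] lemma mul_a (s t : Aff p) : (s * t).a = s.a * t.a := rfl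
@[simp] lemma mul_b (s t : Aff p) : (s * t).b = s.a * t.b + s.b := rfl
@[simp] lemma one_a : (1 : Aff p).a = 1 := rfl
@[simp] lemma one_b : (1 : Aff p).b = 0 := rfl
@[simp] lemma inv_a (s : Aff p) : (s⁻¹).a = s.a⁻¹ := rfl
@[simp] lemma inv_b (s : Aff p) : (s⁻¹).b = -(s.a⁻¹ : (ZMod p)ˣ) * s.b := rfl

instance : Group (Aff p) :=
  Group.ofLeftAxioms
    (fun s t v => by
      apply Aff.ext
      · simp [mul_assoc]
      · simp; ring)
    (fun s => by apply Aff.ext <;> simp)
    (fun s => by apply Aff.ext <;> simp)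

instance : MulAction (Aff p) (ZMod p) where
  smul s x := s.a * x + s.b
  one_smul x := by show ((1 : Aff p).a : ZMod p) * x + (1 : Aff p).b = x; simp
  mul_smul s t x := by
    show ((s * t).a : ZMod p) * x + (s * t).b = s.a * (t.a * x + t.b) + s.b
    simp; ring

lemma smul_def (s : Aff p) (x : ZMod p) : s • x = s.a * x + s.b := rfl

/-- equivalence with pairs -/
def affEquiv : Aff p ≃ (ZMod p)ˣ × ZMod p where
  toFun s := (s.a, s.b)
  invFun s := ⟨s.1, s.2⟩
  left_inv _ := rfl
  right_inv _ := rfl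

instance [NeZero p] : Finite (Aff p) := Finite.of_equiv _ affEquiv.symm

/-- linear part -/
def linHom (p : ℕ) : Aff p →* (ZMod p)ˣ where
  toFun s := s.a
  map_one' := rfl
  map_mul' _ _ := rfl

/-- translations -/
def transHom (p : ℕ) : Multiplicative (ZMod p) →* Aff p where
  toFun s := ⟨1, s.toAdd⟩
  map_one' := rfl
  map_mul' s t := by
    apply Aff.ext
    · simp
    · simp [add_comm]

instance : Group.IsSolvable (Aff p) := by
  apply Group.isSolvable_of_ker_le_range (transHom p) (linHom p)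
  intro s hs
  have : s.a = 1 := hs
  exact ⟨Multiplicative.ofAdd s.b, Aff.ext this.symm rfl⟩

lemma p_dvd_card [NeZero p] : p ∣ Nat.card (Aff p) := by
  rw [Nat.card_congr affEquiv, Nat.card_prod, Nat.card_zmod]
  exact Dvd.intro_left _ rfl

lemma trans_zpow (b : ZMod p) (j : ℤ) : (⟨1, b⟩ : Aff p) ^ j = ⟨1, j * b⟩ := by
  have := map_zpow (transHom p) (Multiplicative.ofAdd b) j
  have e : (transHom p) (Multiplicative.ofAdd b) = ⟨1, b⟩ := rfl
  rw [e] at this
  rw [← this]
  apply Aff.ext
  · rfl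
  · show Multiplicative.toAdd (Multiplicative.ofAdd b ^ j) = j * b
    rw [toAdd_zpow]; simp

lemma nontrans_zpow [hp : Fact p.Prime] (t : Aff p) (ht : t.a ≠ 1) (j : ℤ)
    (hj : j ≡ 1 [ZMOD ((p - 1 : ℕ) : ℤ)]) : t ^ j = t := by
  have ha : (1 - (t.a : ZMod p)) ≠ 0 := by
    intro h
    apply ht
    ext
    simp only [Units.val_one]
    exact (sub_eq_zero.mp h).symm
  let c : ZMod p := t.b / (1 - t.a)
  have h1 : t = (⟨1, c⟩ : Aff p) * ⟨t.a, 0⟩ * (⟨1, c⟩ : Aff p)⁻¹ := by
    apply Aff.ext
    · simp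
    · simp only [mul_b, inv_b, mul_a, Units.val_one, inv_one, one_mul, c]
      field_simp
      ring
  have h2 : ∀ (n : ℕ), (⟨t.a, 0⟩ : Aff p) ^ n = ⟨t.a ^ n, 0⟩ := by
    intro n
    induction n with
    | zero => rw [pow_zero, pow_zero]; rfl
    | succ n ih =>
      rw [pow_succ, ih]
      apply Aff.ext
      · simp [pow_succ]
      · simp
  have h3 : (⟨t.a, 0⟩ : Aff p) ^ (p - 1) = 1 := by
    rw [h2]
    apply Aff.ext
    · simp only [one_a]
      have := ZMod.units_pow_card_sub_one_eq_one p t.a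
      exact this
    · rfl
  have h4 : t ^ (p - 1) = 1 := by
    rw [h1, conj_pow, h3]; group
  obtain ⟨q, hq⟩ := (Int.modEq_iff_dvd.mp hj)
  have : j = 1 - ((p - 1 : ℕ) : ℤ) * q := by linarith
  rw [this, zpow_sub, zpow_mul, zpow_natCast, h4]
  simp

end Aff

section WrAff

variable {H : Type u} [Group H]

lemma isSolvable_pi {ι : Type} {K : Type u} [Group K] [hK : Group.IsSolvable K] :
    Group.IsSolvable (ι → K) := by
  obtain ⟨n, hn⟩ := hK
  refine ⟨⟨n, ?_⟩⟩
  rw [eq_bot_iff]
  intro x hx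
  rw [Subgroup.mem_bot]
  funext i
  have h1 : (Pi.evalMonoidHom (fun _ : ι => K) i) x ∈
      (derivedSeries (ι → K) n).map (Pi.evalMonoidHom (fun _ : ι => K) i) := ⟨x, hx, rfl⟩
  have h2 := map_derivedSeries_le_derivedSeries (Pi.evalMonoidHom (fun _ : ι => K) i) n h1
  rw [hn, Subgroup.mem_bot] at h2
  exact h2

lemma isSolvable_wr {Ω : Type} {K : Type u} {T : Type} [Group K] [Group T] [MulAction T Ω]
    [Group.IsSolvable K] [Group.IsSolvable T] : Group.IsSolvable (Wr Ω K T) := by
  have : Group.IsSolvable (Ω → K) := isSolvable_pi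
  apply Group.isSolvable_of_ker_le_range (SemidirectProduct.inl : (Ω → K) →* Wr Ω K T)
    (SemidirectProduct.rightHom)
  rw [SemidirectProduct.range_inl_eq_ker_rightHom]

instance finite_wr {Ω : Type} {K : Type u} {T : Type} [Group K] [Group T] [MulAction T Ω]
    [Finite Ω] [Finite K] [Finite T] : Finite (Wr Ω K T) :=
  Finite.of_equiv _ (SemidirectProduct.equivProd (φ := wact Ω K T)).symm

lemma card_wr {Ω : Type} {K : Type u} {T : Type} [Group K] [Group T] [MulAction T Ω] :
    Nat.card (Wr Ω K T) = Nat.card (Ω → K) * Nat.card T := by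
  rw [Nat.card_congr (SemidirectProduct.equivProd (φ := wact Ω K T)), Nat.card_prod]

theorem CD_wr {p : ℕ} [hp : Fact p.Prime] {D : ℕ} (hD : (p - 1) ∣ D) [Finite H]
    (hH : CD D H) : CD D (Wr (ZMod p) H (Aff p)) := by
  classical
  intro x j hj hjD
  have : NeZero p := ⟨hp.1.ne_zero⟩
  have hcard : Nat.card (Wr (ZMod p) H (Aff p)) = Nat.card H ^ p * Nat.card (Aff p) := by
    rw [card_wr, Nat.card_fun]
    simp
  have hjH : IsCoprime j (Nat.card H : ℤ) := by
    apply hj.of_isCoprime_of_dvd_right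
    rw [hcard]
    have : Nat.card H ∣ Nat.card H ^ p * Nat.card (Aff p) :=
      (dvd_pow_self _ hp.1.ne_zero).mul_right _
    exact_mod_cast this
  have hjp : IsCoprime j (p : ℤ) := by
    apply hj.of_isCoprime_of_dvd_right
    rw [hcard]
    have : p ∣ Nat.card H ^ p * Nat.card (Aff p) := p_dvd_card.mul_left _
    exact_mod_cast this
  have hjp1 : j ≡ 1 [ZMOD ((p - 1 : ℕ) : ℤ)] := hjD.of_dvd (by exact_mod_cast hD)
  set t := x.right with ht
  -- period facts
  by_cases hcase : t ^ j = t
  · apply IsConj.symm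
    apply isConj_wr
    · rw [wzpow_right]; exact hcase
    · intro ω
      set k0 := MulAction.period t ω with hk0
      have hfix0 : (x ^ (k0 : ℤ)).right • ω = ω := by
        rw [wzpow_right, zpow_natCast]
        exact MulAction.pow_period_smul t ω
      obtain ⟨b, hb⟩ := isConj_iff.mp (hH ((x ^ (k0 : ℤ)).left ω) j hjH hjD).symm
      refine ⟨b, ?_⟩
      intro k hk
      obtain ⟨q, hq⟩ := MulAction.zpow_smul_eq_iff_period_dvd.mp hk
      have e1 : (x ^ j) ^ k = (x ^ (k0 : ℤ)) ^ (j * q) := by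
        rw [← zpow_mul, ← zpow_mul, hq]; congr 1; ring
      have e2 : x ^ k = (x ^ (k0 : ℤ)) ^ q := by
        rw [← zpow_mul, hq]
      rw [e1, e2, wzpow_left _ _ hfix0, wzpow_left _ _ hfix0, zpow_mul, ← hb, conj_zpow]
  · -- translation case
    have hta : t.a = 1 := by
      by_contra h
      exact hcase (nontrans_zpow t h j hjp1)
    have ht1 : t = ⟨1, t.b⟩ := Aff.ext hta rfl
    have htb : t.b ≠ 0 := by
      intro h
      apply hcase
      rw [ht1, h, trans_zpow, mul_zero]
    have hju : IsUnit (j : ZMod p) := by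
      obtain ⟨u, v, huv⟩ := hjp
      have := congrArg (Int.cast : ℤ → ZMod p) huv
      push_cast at this
      rw [ZMod.natCast_self, mul_zero, add_zero] at this
      exact IsUnit.of_mul_eq_one _ (by rw [mul_comm]; exact this)
    obtain ⟨ju, hju'⟩ := hju
    let g : Aff p := ⟨ju⁻¹, 0⟩
    have hg : g * t ^ j * g⁻¹ = t := by
      rw [mul_inv_eq_iff_eq_mul]
      rw [ht1, trans_zpow]
      apply Aff.ext
      · simp [g]
      · simp only [g, mul_b, Units.val_one, one_mul, add_zero, mul_zero, zero_add, ← hju']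
        rw [← mul_assoc, Units.inv_mul, one_mul]
    let y : Wr (ZMod p) H (Aff p) := SemidirectProduct.inr g * x ^ j * (SemidirectProduct.inr g)⁻¹
    have hy : IsConj (x ^ j) y := isConj_iff.mpr ⟨_, rfl⟩
    refine hy.trans ?_
    apply IsConj.symm
    have hyr : y.right = t := by
      show (g * (x ^ j).right) * (g)⁻¹ = t
      rw [wzpow_right]; exact hg
    have hxp : (x ^ (p : ℤ)).right = 1 := by
      rw [wzpow_right, ← ht, ht1, trans_zpow]
      simp
      rfl
    -- the components of `x ^ p` are conjugate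
    have hstep : ∀ ω, IsConj ((x ^ (p : ℤ)).left ω) ((x ^ (p : ℤ)).left (t • ω)) := by
      intro ω
      have h1 : x * x ^ (p : ℤ) = x ^ (p : ℤ) * x := by
        rw [← zpow_one_add, ← zpow_add_one, add_comm]
      have h2 := congrArg (fun z : Wr (ZMod p) H (Aff p) => z.left (t • ω)) h1
      simp only [wmul_left] at h2
      rw [hxp, ← ht, inv_smul_smul, inv_one, one_smul] at h2
      rw [isConj_iff]
      exact ⟨x.left (t • ω), by rw [h2]; group⟩
    have hstep2 : ∀ (n : ℕ) ω, IsConj ((x ^ (p : ℤ)).left ω) ((x ^ (p : ℤ)).left (t ^ n • ω)) := by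
      intro n
      induction n with
      | zero => intro ω; rw [pow_zero, one_smul]
      | succ n ih =>
        intro ω
        refine (ih ω).trans ?_
        rw [pow_succ', mul_smul]
        exact hstep _
    have hall : ∀ ω ω', IsConj ((x ^ (p : ℤ)).left ω) ((x ^ (p : ℤ)).left ω') := by
      intro ω ω'
      have : t ^ (((ω' - ω) / t.b).val) • ω = ω' := by
        rw [← zpow_natCast, ht1, trans_zpow, smul_def]
        simp only [Units.val_one, one_mul]
        push_cast
        rw [ZMod.natCast_zmod_val]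
        field_simp
        ring
      rw [← this]
      exact hstep2 _ _
    apply isConj_wr
    · exact hyr
    · intro ω
      have hc := ((hall ω (g⁻¹ • ω)).trans
        (hH ((x ^ (p : ℤ)).left (g⁻¹ • ω)) j hjH hjD).symm)
      obtain ⟨b, hb⟩ := isConj_iff.mp hc
      refine ⟨b, ?_⟩
      intro k hk
      have hpk : (p : ℤ) ∣ k := by
        rw [← ht, ht1, trans_zpow, smul_def] at hk
        simp only [Units.val_one, one_mul] at hk
        have h3 : (k : ZMod p) * t.b = 0 := by
          have := hk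
          rwa [add_eq_left] at this
        have h4 : (k : ZMod p) = 0 := by
          rcases mul_eq_zero.mp h3 with h | h
          · exact h
          · exact absurd h htb
        exact (ZMod.intCast_zmod_eq_zero_iff_dvd k p).mp h4
      obtain ⟨q, hq⟩ := hpk
      have hfix : ∀ ω : ZMod p, (x ^ (p : ℤ)).right • ω = ω := by
        intro ω; rw [hxp, one_smul]
      have e2 : x ^ k = (x ^ (p : ℤ)) ^ q := by
        rw [← zpow_mul, hq]
      have e1 : y ^ k = SemidirectProduct.inr g * (x ^ (p : ℤ)) ^ (j * q) *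
          (SemidirectProduct.inr g)⁻¹ := by
        show (SemidirectProduct.inr g * x ^ j * (SemidirectProduct.inr g)⁻¹) ^ k = _
        rw [conj_zpow, ← zpow_mul, ← zpow_mul, hq]
        congr 3
        ring
      have e3 : (y ^ k).left ω = ((x ^ (p : ℤ)) ^ (j * q)).left (g⁻¹ • ω) := by
        rw [e1, wmul_left, wmul_left]
        have h5 : ((x ^ (p : ℤ)) ^ (j * q)).right = 1 := by
          rw [wzpow_right, hxp, one_zpow]
        simp only [SemidirectProduct.left_inr, SemidirectProduct.right_inr, Pi.one_apply, one_mul,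
          SemidirectProduct.mul_right, h5, mul_one]
        have h6 : ((SemidirectProduct.inr g : Wr (ZMod p) H (Aff p))⁻¹).left = 1 := by
          rw [← map_inv]; rfl
        rw [h6]; simp
      rw [e3, e2, wzpow_left _ _ (hfix _), wzpow_left _ _ (hfix _), zpow_mul, ← hb, conj_zpow]

end WrAff

section Embed

/-- `G` embeds into a finite solvable group in the class `CD D`. -/
def Emb (D : ℕ) (G : Type u) [Group G] : Prop :=
  ∃ (H : Type) (_ : Group H), Finite H ∧ Group.IsSolvable H ∧ CD D H ∧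
    ∃ f : G →* H, Function.Injective f

/-- Krasner-Kaloujnine embedding for a normal subgroup of prime index. -/
theorem emb_step {D p : ℕ} [hp : Fact p.Prime] (hD : (p - 1) ∣ D) {G : Type u} [Group G]
    (φ : G →* Multiplicative (ZMod p)) (hφ : Function.Surjective φ) (h : Emb D φ.ker) :
    Emb D G := by
  classical
  obtain ⟨H, _, hfin, hsol, hCD, f, hf⟩ := h
  have : NeZero p := ⟨hp.1.ne_zero⟩
  refine ⟨Wr (ZMod p) H (Aff p), inferInstance, finite_wr, isSolvable_wr, CD_wr hD hCD, ?_⟩
  choose s hs using fun ω : ZMod p => hφ (Multiplicative.ofAdd ω)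
  have hmem : ∀ (g : G) (ω : ZMod p), (s ω)⁻¹ * g * s (ω - (φ g).toAdd) ∈ φ.ker := by
    intro g ω
    rw [MonoidHom.mem_ker, map_mul, map_mul, map_inv, hs, hs, ofAdd_sub, ofAdd_toAdd]
    rw [mul_comm, mul_comm (Multiplicative.ofAdd ω)⁻¹, ← mul_assoc, div_mul_cancel, mul_inv_cancel]
  let F : G → Wr (ZMod p) H (Aff p) := fun g =>
    ⟨fun ω => f ⟨(s ω)⁻¹ * g * s (ω - (φ g).toAdd), hmem g ω⟩, ⟨1, (φ g).toAdd⟩⟩
  have hinv : ∀ (b ω : ZMod p), ((⟨1, b⟩ : Aff p)⁻¹ • ω : ZMod p) = ω - b := by
    intro b ω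
    rw [smul_def]; simp; ring
  have hmul : ∀ g g', F (g * g') = F g * F g' := by
    intro g g'
    apply SemidirectProduct.ext
    · funext ω
      rw [wmul_left]
      show f _ = f _ * f ⟨(s ((⟨1, (φ g).toAdd⟩ : Aff p)⁻¹ • ω))⁻¹ * g' *
        s (((⟨1, (φ g).toAdd⟩ : Aff p)⁻¹ • ω) - (φ g').toAdd), _⟩
      rw [← map_mul]
      congr 1
      apply Subtype.ext
      show (s ω)⁻¹ * (g * g') * s (ω - (φ (g * g')).toAdd) =
        ((s ω)⁻¹ * g * s (ω - (φ g).toAdd)) * ((s ((⟨1, (φ g).toAdd⟩ : Aff p)⁻¹ • ω))⁻¹ * g' *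
        s (((⟨1, (φ g).toAdd⟩ : Aff p)⁻¹ • ω) - (φ g').toAdd))
      rw [hinv, map_mul, toAdd_mul, sub_add_eq_sub_sub]
      group
    · apply Aff.ext
      · simp [F]
      · simp [F, add_comm]
  refine ⟨MonoidHom.mk' F hmul, ?_⟩
  rw [injective_iff_map_eq_one]
  intro g hg
  have hg' : F g = 1 := hg
  have h1 : (φ g).toAdd = 0 := congrArg (fun z : Wr (ZMod p) H (Aff p) => z.right.b) hg'
  have h2 : f ⟨(s 0)⁻¹ * g * s (0 - (φ g).toAdd), hmem g 0⟩ = 1 :=
    congrFun (congrArg (fun z : Wr (ZMod p) H (Aff p) => z.left) hg') 0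
  have h3 := (injective_iff_map_eq_one f).mp hf _ h2
  have h4 : (s 0)⁻¹ * g * s (0 - (φ g).toAdd) = 1 := congrArg Subtype.val h3
  rw [h1, sub_zero] at h4
  have : g = s 0 * ((s 0)⁻¹ * g * s 0) * (s 0)⁻¹ := by group
  rw [this, h4]; group

theorem exists_prime_quotient (Q : Type u) [Group Q] [Finite Q] [Group.IsSolvable Q]
    [Nontrivial Q] : ∃ p : ℕ, p.Prime ∧ ∃ φ : Q →* Multiplicative (ZMod p),
      Function.Surjective φ := by
  classical
  have h1 : commutator Q < ⊤ := Group.IsSolvable.commutator_lt_top_of_nontrivial Q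
  have h2 : Nontrivial (Abelianization Q) := by
    have : Nontrivial (Q ⧸ commutator Q) := by
      rw [← not_subsingleton_iff_nontrivial]
      intro h
      exact h1.ne (QuotientGroup.subgroup_eq_top_of_subsingleton _ h)
    exact this
  have h3 : Nontrivial (Subgroup (Abelianization Q)) := inferInstance
  have : Finite (Abelianization Q) := by
    unfold Abelianization; infer_instance
  obtain ⟨K, hK⟩ := IsCoatomic.exists_coatom (Subgroup (Abelianization Q))
  have h4 : IsSimpleOrder (Set.Ici K) := Set.isSimpleOrder_Ici_iff_isCoatom.mpr hK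
  have h5 : IsSimpleGroup (Abelianization Q ⧸ K) := by
    let e : Subgroup (Abelianization Q ⧸ K) ≃o Set.Ici K := QuotientGroup.comapMk'OrderIso K
    have h6 : IsSimpleOrder (Subgroup (Abelianization Q ⧸ K)) := (OrderIso.isSimpleOrder_iff e).mpr h4
    have h7 : Nontrivial (Abelianization Q ⧸ K) := by
      have := h6.toNontrivial
      exact Subgroup.nontrivial_iff.mp this
    exact { eq_bot_or_eq_top_of_normal := fun N _ => h6.eq_bot_or_eq_top N }
  have h8 := IsSimpleGroup.prime_card (α := Abelianization Q ⧸ K)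
  refine ⟨Nat.card (Abelianization Q ⧸ K), h8, ?_⟩
  have : Fact (Nat.card (Abelianization Q ⧸ K)).Prime := ⟨h8⟩
  have hcyc : IsCyclic (Abelianization Q ⧸ K) := isCyclic_of_prime_card rfl
  let e := (zmodCyclicMulEquiv hcyc).symm
  refine ⟨e.toMonoidHom.comp ((QuotientGroup.mk' K).comp Abelianization.of), ?_⟩
  refine e.surjective.comp ((QuotientGroup.mk'_surjective K).comp ?_)
  exact QuotientGroup.mk'_surjective _

theorem emb_over {D : ℕ} : ∀ (n : ℕ) (G : Type u) [Group G] [Finite G] [Group.IsSolvable G]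
    (N : Subgroup G) [N.Normal], N.index = n → (∀ p : ℕ, p.Prime → p ∣ N.index → (p - 1) ∣ D) →
    Emb D N → Emb D G := by
  intro n
  induction n using Nat.strong_induction_on with
  | _ n ih =>
  intro G _ _ _ N _ hn hp hN
  by_cases hNt : N = ⊤
  · obtain ⟨H, i1, i2, i3, i4, f, hf⟩ := hN
    refine ⟨H, i1, i2, i3, i4, f.comp (Subgroup.topEquiv.symm.trans
      (MulEquiv.subgroupCongr hNt).symm).toMonoidHom, ?_⟩
    exact hf.comp (MulEquiv.injective _)
  · have hnt : Nontrivial (G ⧸ N) := by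
      rw [← not_subsingleton_iff_nontrivial]
      intro h
      exact hNt (QuotientGroup.subgroup_eq_top_of_subsingleton _ h)
    obtain ⟨p, hpp, φ, hφ⟩ := exists_prime_quotient (G ⧸ N)
    let ψ : G →* Multiplicative (ZMod p) := φ.comp (QuotientGroup.mk' N)
    have hψ : Function.Surjective ψ := hφ.comp (QuotientGroup.mk'_surjective N)
    have hNψ : N ≤ ψ.ker := by
      intro x hx
      rw [MonoidHom.mem_ker]
      show φ (QuotientGroup.mk' N x) = 1
      have : QuotientGroup.mk' N x = 1 := (QuotientGroup.eq_one_iff x).mpr hx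
      rw [this, map_one]
    have hidx : ψ.ker.index = p := by
      rw [Subgroup.index_ker, MonoidHom.range_eq_top.mpr hψ, Subgroup.card_top]
      exact Nat.card_zmod p
    have hrel : N.relIndex ψ.ker * p = N.index := by
      have := Subgroup.relIndex_mul_index hNψ
      rwa [hidx] at this
    have hpD : (p - 1) ∣ D := hp p hpp ⟨_, by rw [← hrel, mul_comm]⟩
    have : Fact p.Prime := ⟨hpp⟩
    apply emb_step hpD ψ hψ
    have hpos : 0 < N.index := Nat.pos_of_ne_zero Subgroup.index_ne_zero_of_finite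
    have hlt : (N.subgroupOf ψ.ker).index < n := by
      rw [← hn]
      show N.relIndex ψ.ker < N.index
      rw [← hrel] at hpos ⊢
      have h2 := hpp.two_le
      have : 0 < N.relIndex ψ.ker := Nat.pos_of_mul_pos_right hpos
      nlinarith
    apply ih _ hlt ψ.ker (N.subgroupOf ψ.ker) rfl
    · intro q hq hqd
      apply hp q hq
      rw [← hrel]
      exact hqd.mul_right _
    · obtain ⟨H, i1, i2, i3, i4, f, hf⟩ := hN
      refine ⟨H, i1, i2, i3, i4, f.comp (Subgroup.subgroupOfEquivOfLe hNψ).toMonoidHom, ?_⟩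
      exact hf.comp (MulEquiv.injective _)

end Embed

end Pool.Agent.R701.CutWr
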